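import Pool.Agent.N885.NQ.El

/-! # Near-counterexamples of every order: coverage -/

set_option linter.unusedSectionVars false

namespace Pool.Agent.N885.NQ

open Finset

variable [QPar]

theorem mm_lt_succ' (h i : ℕ) : mm h i + 6 ≤ mm h (i + 1) := by
  rw [mm_succ]; have := ss_ge h i; omega

theorem exists_level' {h k : ℕ} (hk : mm h 1 + 2 ≤ k) :
    ∃ i, mm h (i + 1) + 2 ≤ k ∧ k < mm h (i + 2) + 2 := by
  have hgrow : ∀ j, j ≤ mm h j := by
    intro j
    induction j with
    | zero => exact Nat.zero_le _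
    | succ j ih => have := mm_lt_succ' h j; omega
  have hex : ∃ j, k < mm h (j + 2) + 2 := ⟨k, by have := hgrow (k + 2); omega⟩
  classical
  let j := Nat.find hex
  have hj : k < mm h (j + 2) + 2 := Nat.find_spec hex
  refine ⟨j, ?_, hj⟩
  rcases Nat.eq_zero_or_pos j with h0 | hpos
  · rw [h0]; exact hk
  · have h5 := Nat.find_min hex (m := j - 1) (by omega)
    have h6 : j - 1 + 2 = j + 1 := by omega
    rw [h6] at h5
    omega

/-- numerical inequality -/
theorem BB_ineq {h : ℕ} (hh : 2 ≤ h) {K : ℕ} (hK : 2 ≤ K) :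
    h * BB h ^ (K - 1) + 3 * h ≤ BB h ^ K := by
  have h1 : h + 1 ≤ bb h := lt_bb h
  have h2 : (h + 1) * (h + 1) ≤ BB h := by
    calc (h + 1) * (h + 1) ≤ bb h * bb h := Nat.mul_le_mul h1 h1
      _ = bb h ^ 2 := by ring
      _ ≤ bb h ^ h := Nat.pow_le_pow_right (bb_pos h) hh
  obtain ⟨K', rfl⟩ : ∃ K', K = K' + 1 := ⟨K - 1, by omega⟩
  simp only [Nat.add_sub_cancel]
  have h3 : BB h ≤ BB h ^ K' := Nat.le_self_pow (by omega) _
  have h4 : 3 * h ≤ BB h ^ K' * (h + 1) := by
    calc 3 * h ≤ (h + 1) * (h + 1) * (h + 1) := by nlinarith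
      _ ≤ BB h * (h + 1) := Nat.mul_le_mul_right _ h2
      _ ≤ _ := Nat.mul_le_mul_right _ h3
  calc h * BB h ^ K' + 3 * h ≤ h * BB h ^ K' + BB h ^ K' * (h + 1) := by omega
    _ = BB h ^ K' * (2 * h + 1) := by ring
    _ ≤ BB h ^ K' * BB h := Nat.mul_le_mul_left _ (by nlinarith)
    _ = BB h ^ (K' + 1) := by rw [pow_succ]

theorem cov {h : ℕ} (hh : 2 ≤ h) : S_Cov h := by
  intro v
  refine ⟨BB h ^ (mm h 1 + 2), fun n hn => ?_⟩
  have hh0 : 0 < h := by omega
  have hB : 1 < BB h := two_le_BB hh0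
  have hn0 : n ≠ 0 := by
    have := Nat.pow_pos (n := mm h 1 + 2) (BB_pos h); omega
  set k := Nat.log (BB h) n with hk
  have hk1 : BB h ^ k ≤ n := Nat.pow_log_le_self _ hn0
  have hk2 : n < BB h ^ (k + 1) := Nat.lt_pow_succ_log_self hB n
  have hk0 : mm h 1 + 2 ≤ k := Nat.le_log_of_pow_le hB hn
  obtain ⟨i, hi1, hi2⟩ := exists_level' hk0
  -- decoding
  let sw : ℕ → Prop := fun e => mm h (i + 1) + 2 + e % ll h i + 1 ≤ k
  have hdec : ∀ e, Decidable (sw e) := fun e => inferInstanceAs (Decidable (_ ≤ _))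
  let o : Fin h → ℕ → ℕ := fun c e => if sw e then v i c e else kap h i e
  obtain ⟨p, hp, _⟩ := mixed hh0 v i o n
  set e : Fin h → ℕ := fun c => p.1 c with he
  set w : Fin h → ℕ := fun c => p.2 c with hw
  have heN : ∀ c, e c < NN h i := fun c => (p.1 c).2
  have hwN : ∀ c, w c < bb h ^ ss h i := fun c => (p.2 c).2
  let y : Fin h → ℕ := fun c => if sw (e c) then (v i c (e c) + bb h ^ (c : ℕ) * sp h (w c)) % VV h i
    else kap h i (e c) + bb h ^ (c : ℕ) * sp h (w c)
  have hyV : ∀ c, y c < 2 * VV h i := by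
    intro c
    have h1 := VV_pos h i
    by_cases h2 : sw (e c)
    · simp only [y, h2, if_true]
      have := Nat.mod_lt (v i c (e c) + bb h ^ (c : ℕ) * sp h (w c)) h1
      omega
    · simp only [y, h2, if_false]
      have h3 : bb h ^ (c : ℕ) * sp h (w c) < VV h i := (csp_lt_iff c.2 _ _).mpr (hwN c)
      have h4 : kap h i (e c) ≤ VV h i :=
        (kap_le h i (e c)).trans (Nat.pow_le_pow_right (BB_pos h) (by omega))
      omega
  have hmod : (∑ c : Fin h, (pt h v i c (e c) + MM h i * y c)) ≡ n [MOD MM h (i + 1)] := by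
    refine Nat.ModEq.trans ?_ hp
    refine Nat.ModEq.sum fun c _ => Nat.ModEq.add_left _ ?_
    rw [MM_succ]
    refine Nat.ModEq.mul_left' _ ?_
    by_cases h2 : sw (e c)
    · have h3 : o c ((p.1 c : ℕ)) = v i c (e c) := by simp only [o]; rw [if_pos h2]
      rw [h3]
      simp only [y, h2, if_true]
      exact Nat.mod_modEq _ _
    · have h3 : o c ((p.1 c : ℕ)) = kap h i (e c) := by simp only [o]; rw [if_neg h2]
      rw [h3]
      simp only [y, h2, if_false]
      exact Nat.ModEq.refl _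
  set P := ∑ c : Fin h, (pt h v i c (e c) + MM h i * y c) with hP
  have hPlt : P ≤ 3 * h * MM h (i + 1) := by
    have h1 : ∀ c ∈ (univ : Finset (Fin h)), pt h v i c (e c) + MM h i * y c ≤ 3 * MM h (i + 1) := by
      intro c _
      have h2 := pt_lt v h i c (e c)
      have h3 : MM h i * y c ≤ MM h i * (2 * VV h i) := Nat.mul_le_mul_left _ (hyV c).le
      have h4 : MM h i ≤ MM h (i + 1) := Nat.le_of_dvd (MM_pos h _) (MM_dvd (Nat.le_succ i))
      have h5 : MM h i * (2 * VV h i) = 2 * MM h (i + 1) := by rw [MM_succ]; ring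
      omega
    calc P ≤ ∑ _c : Fin h, 3 * MM h (i + 1) := Finset.sum_le_sum h1
      _ = _ := by rw [Finset.sum_const, card_univ, Fintype.card_fin, smul_eq_mul]; ring
  -- the scale above `M (i+1)`
  obtain ⟨K, hKk⟩ : ∃ K, k = mm h (i + 1) + K := ⟨k - mm h (i + 1), by omega⟩
  have hK2 : 2 ≤ K := by omega
  have hBk : BB h ^ k = MM h (i + 1) * BB h ^ K := by rw [hKk, pow_add]; rfl
  have hBk' : BB h ^ (k + 1) = MM h (i + 1) * BB h ^ (K + 1) := by
    rw [hKk, add_assoc, pow_add]; rfl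
  have hineq := BB_ineq hh hK2
  have hPn : P + MM h (i + 1) * (h * BB h ^ (K - 1)) ≤ n := by
    calc P + MM h (i + 1) * (h * BB h ^ (K - 1))
        ≤ 3 * h * MM h (i + 1) + MM h (i + 1) * (h * BB h ^ (K - 1)) := by omega
      _ = MM h (i + 1) * (h * BB h ^ (K - 1) + 3 * h) := by ring
      _ ≤ MM h (i + 1) * BB h ^ K := Nat.mul_le_mul_left _ hineq
      _ = BB h ^ k := hBk.symm
      _ ≤ n := hk1
  obtain ⟨q', hq'⟩ : ∃ q', n = P + MM h (i + 1) * q' := by
    have h1 : P ≤ n := by omega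
    obtain ⟨q', hq'⟩ := (Nat.modEq_iff_dvd' h1).mp hmod
    exact ⟨q', by omega⟩
  have hq1 : h * BB h ^ (K - 1) ≤ q' := by
    have : MM h (i + 1) * (h * BB h ^ (K - 1)) ≤ MM h (i + 1) * q' := by omega
    exact Nat.le_of_mul_le_mul_left this (MM_pos h _)
  have hq2 : q' < BB h ^ (K + 1) := by
    have : MM h (i + 1) * q' < MM h (i + 1) * BB h ^ (K + 1) := by omega
    exact lt_of_mul_lt_mul_left this (Nat.zero_le _)
  -- the new indices
  let e' : Fin h → ℕ := fun c => e c + NN h i * w c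
  have he'N : ∀ c, e' c < NN h (i + 1) := by
    intro c
    rw [NN_succ]
    calc e c + NN h i * w c < NN h i + NN h i * w c := by have := heN c; omega
      _ = NN h i * (w c + 1) := by ring
      _ ≤ _ := Nat.mul_le_mul_left _ (hwN c)
  have he'mod : ∀ c, e' c % NN h i = e c := fun c => by
    simp only [e']; rw [Nat.add_mul_mod_self_left, Nat.mod_eq_of_lt (heN c)]
  have he'div : ∀ c, e' c / NN h i = w c := fun c => by
    simp only [e']
    rw [Nat.add_mul_div_left _ _ (NN_pos h i), Nat.div_eq_of_lt (heN c), zero_add]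
  let kk : Fin h → ℕ := fun c => if sw (e c) then kap h (i + 1) (e' c) else 0
  have hkk : ∀ c, kk c ≤ BB h ^ (K - 1) := by
    intro c
    by_cases h2 : sw (e c)
    · simp only [kk, h2, if_true]
      rw [kap_succ, he'mod]
      apply Nat.pow_le_pow_right (BB_pos h)
      have h3 : mm h (i + 1) + 2 + e c % ll h i + 1 ≤ k := h2
      omega
    · simp only [kk, h2, if_false]; exact Nat.zero_le _
  have hkksum : ∑ c, kk c ≤ q' := by
    calc ∑ c, kk c ≤ ∑ _c : Fin h, BB h ^ (K - 1) := Finset.sum_le_sum fun c _ => hkk c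
      _ = h * BB h ^ (K - 1) := by
          rw [Finset.sum_const, card_univ, Fintype.card_fin, smul_eq_mul]
      _ ≤ q' := hq1
  obtain ⟨u, hu⟩ := comb_surj hh0 (q' - ∑ c, kk c)
  have hulow : ∀ c, u c < bb h ^ (K + 1) := by
    apply (comb_lt_iff _ _).mp
    rw [hu]; omega
  -- the summands
  let a : Fin h → ℕ := fun c => if sw (e c) then el h v (i + 1) c (e' c) (u c)
    else el h v i c (e c) (w c + bb h ^ ss h i * u c)
  have ha : ∀ c, a c = pt h v i c (e c) + MM h i * y c + MM h (i + 1) * (kk c +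
      bb h ^ (c : ℕ) * sp h (u c)) := by
    intro c
    by_cases h2 : sw (e c)
    · simp only [a, y, kk, h2, if_true]
      unfold el
      rw [pt_succ, he'mod, he'div]
    · simp only [a, y, kk, h2, if_false]
      unfold el
      rw [sp_add _ (hwN c), MM_succ]
      unfold VV
      ring
  have hmem : ∀ c, a c ∈ AA h v := by
    intro c
    by_cases h2 : sw (e c)
    · simp only [a, h2, if_true]
      refine ⟨i + 1, c, e' c, u c, c.2, he'N c, ?_, rfl⟩
      refine lt_of_lt_of_le (hulow c) (Nat.pow_le_pow_right (bb_pos h) ?_)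
      have : mm h (i + 2) = mm h (i + 1) + ss h (i + 1) := mm_succ h (i + 1)
      omega
    · simp only [a, h2, if_false]
      refine ⟨i, c, e c, w c + bb h ^ ss h i * u c, c.2, heN c, ?_, rfl⟩
      have h3 : w c + bb h ^ ss h i * u c < bb h ^ (ss h i + (K + 1)) := by
        rw [pow_add]
        calc w c + bb h ^ ss h i * u c < bb h ^ ss h i + bb h ^ ss h i * u c := by
              have := hwN c; omega
          _ = bb h ^ ss h i * (u c + 1) := by ring
          _ ≤ _ := Nat.mul_le_mul_left _ (hulow c)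
      refine lt_of_lt_of_le h3 (Nat.pow_le_pow_right (bb_pos h) ?_)
      have h4 : ¬ (mm h (i + 1) + 2 + e c % ll h i + 1 ≤ k) := h2
      omega
  refine ⟨Multiset.map a (univ : Finset (Fin h)).val, by simp, ?_, ?_⟩
  · intro x hx
    obtain ⟨c, _, rfl⟩ := Multiset.mem_map.mp hx
    exact hmem c
  · change ∑ c : Fin h, a c = n
    rw [Finset.sum_congr rfl fun c _ => ha c, Finset.sum_add_distrib, ← hP, ← Finset.mul_sum,
      Finset.sum_add_distrib]
    have h1 : ∑ c : Fin h, bb h ^ (c : ℕ) * sp h (u c) = q' - ∑ c, kk c := hu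
    rw [h1, Nat.add_sub_cancel' hkksum, ← hq']

/-! ### thinness -/

/-- elements of level `j` below `B ^ k` -/
theorem level_count {h : ℕ} (v : ℕ → ℕ → ℕ → ℕ) (j k : ℕ) (hjk : mm h j ≤ k) :
    {a : ℕ | a < BB h ^ k ∧ ∃ c e t : ℕ, c < h ∧ e < NN h j ∧
      t < bb h ^ (ss h j + 3 + e % ll h j) ∧ a = el h v j c e t}.ncard ≤
      h * bb h ^ (min k (mm h (j + 1) + 3 + ll h j)) := by
  classical
  set E := min (k - mm h j) (ss h j + 3 + ll h j) with hE
  let F : Finset ℕ := (range h ×ˢ (range (NN h j) ×ˢ range (bb h ^ E))).image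
    fun p => el h v j p.1 p.2.1 p.2.2
  have hsub : {a : ℕ | a < BB h ^ k ∧ ∃ c e t : ℕ, c < h ∧ e < NN h j ∧
      t < bb h ^ (ss h j + 3 + e % ll h j) ∧ a = el h v j c e t} ⊆ (F : Set ℕ) := by
    rintro a ⟨ha, c, e, t, hc, he, ht, rfl⟩
    rw [mem_coe, mem_image]
    refine ⟨(c, e, t), ?_, rfl⟩
    rw [mem_product, mem_product, mem_range, mem_range, mem_range]
    refine ⟨hc, he, ?_⟩
    have h1 := t_lt_of_el_lt v hc hjk ha
    have h2 : t < bb h ^ (ss h j + 3 + ll h j) :=
      lt_of_lt_of_le ht (Nat.pow_le_pow_right (bb_pos h) (by have := mod_ll_lt h j e; omega))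
    simp only [hE]
    rcases min_choice (k - mm h j) (ss h j + 3 + ll h j) with h3 | h3 <;> rw [h3] <;> assumption
  calc _ ≤ (F : Set ℕ).ncard := Set.ncard_le_ncard hsub (Finset.finite_toSet _)
    _ = F.card := Set.ncard_coe_finset _
    _ ≤ (range h ×ˢ (range (NN h j) ×ˢ range (bb h ^ E))).card := card_image_le
    _ = h * (NN h j * bb h ^ E) := by rw [card_product, card_product]; simp
    _ = h * bb h ^ (mm h j + E) := by unfold NN; rw [← pow_add]
    _ ≤ _ := by
        refine Nat.mul_le_mul_left _ (Nat.pow_le_pow_right (bb_pos h) ?_)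
        have h3 : mm h (j + 1) = mm h j + ss h j := mm_succ h j
        rw [hE]
        omega

theorem sum_pow_mm (h J : ℕ) : ∑ j ∈ range (J + 1), bb h ^ mm h j ≤ 2 * bb h ^ mm h J := by
  induction J with
  | zero => simp; omega
  | succ J ih =>
    rw [Finset.sum_range_succ]
    have h1 := mm_lt_succ' h J
    have h2 : 2 * bb h ^ mm h J ≤ bb h ^ mm h (J + 1) := by
      calc 2 * bb h ^ mm h J ≤ bb h * bb h ^ mm h J := Nat.mul_le_mul_right _ (two_le_bb h)
        _ = bb h ^ (mm h J + 1) := by rw [pow_succ]; ring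
        _ ≤ _ := Nat.pow_le_pow_right (bb_pos h) (by omega)
    omega

theorem thin {h : ℕ} (hh : 2 ≤ h) : S_Thin h := by
  intro v
  refine ⟨4 * h, fun k => ?_⟩
  classical
  have hB : 1 < BB h := two_le_BB (by omega)
  -- the largest level
  have hgrow : ∀ j, j ≤ mm h j := by
    intro j
    induction j with
    | zero => exact Nat.zero_le _
    | succ j ih => have := mm_lt_succ' h j; omega
  let J := Nat.findGreatest (fun j => mm h j ≤ k) k
  have hJ : mm h J ≤ k := by
    have := Nat.findGreatest_spec (P := fun j => mm h j ≤ k) (m := 0) (Nat.zero_le k)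
      (by simp [mm_zero])
    exact this
  have hJmax : ∀ j, mm h j ≤ k → j ≤ J := by
    intro j hj
    exact Nat.le_findGreatest ((hgrow j).trans hj) hj
  let L : ℕ → Set ℕ := fun j => {a : ℕ | a < BB h ^ k ∧ ∃ c e t : ℕ, c < h ∧ e < NN h j ∧
      t < bb h ^ (ss h j + 3 + e % ll h j) ∧ a = el h v j c e t}
  have hsub : AA h v ∩ Set.Iio (BB h ^ k) ⊆ ⋃ j ∈ range (J + 1), L j := by
    rintro a ⟨⟨j, c, e, t, hc, he, ht, rfl⟩, hak⟩
    refine Set.mem_biUnion (x := j) ?_ ⟨hak, c, e, t, hc, he, ht, rfl⟩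
    rw [mem_coe, mem_range]
    rcases Nat.eq_zero_or_pos j with rfl | hj
    · omega
    · have h1 := el_lower' v (h := h) (i := j) hj c e t
      have h2 : BB h ^ (mm h j + 2) < BB h ^ k := lt_of_le_of_lt h1 hak
      have h3 := (Nat.pow_lt_pow_iff_right hB).mp h2
      have := hJmax j (by omega)
      omega
  have hLfin : ∀ j, (L j).Finite := fun j => (Set.finite_Iio (BB h ^ k)).subset fun a ha => ha.1
  have hcard : ∀ s : Finset ℕ, (⋃ j ∈ s, L j).ncard ≤ ∑ j ∈ s, (L j).ncard := by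
    intro s
    induction s using Finset.induction_on with
    | empty => simp
    | insert a s ha ih =>
      rw [Finset.sum_insert ha, Finset.set_biUnion_insert]
      exact (Set.ncard_union_le _ _).trans (Nat.add_le_add_left ih _)
  have hfin : (⋃ j ∈ range (J + 1), L j).Finite :=
    Set.Finite.biUnion (Finset.finite_toSet _) fun j _ => hLfin j
  have h1 : (AA h v ∩ Set.Iio (BB h ^ k)).ncard ≤ ∑ j ∈ range (J + 1), (L j).ncard :=
    (Set.ncard_le_ncard hsub hfin).trans (hcard _)
  have h2 : ∀ j ∈ range (J + 1), (L j).ncard ≤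
      h * bb h ^ (min k (mm h (j + 1) + 3 + ll h j)) := by
    intro j hj
    refine level_count v j k (le_trans (mm_mono h ?_) hJ)
    have := mem_range.mp hj; omega
  have h3 : ∑ j ∈ range (J + 1), bb h ^ (min k (mm h (j + 1) + 3 + ll h j)) ≤ 4 * bb h ^ k := by
    have hk1 : ∀ j, bb h ^ (min k (mm h (j + 1) + 3 + ll h j)) ≤ bb h ^ k := fun j =>
      Nat.pow_le_pow_right (bb_pos h) (min_le_left _ _)
    rcases Nat.lt_or_ge J 2 with hJ2 | hJ2
    · calc _ ≤ ∑ _j ∈ range (J + 1), bb h ^ k := Finset.sum_le_sum fun j _ => hk1 j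
        _ = (J + 1) * bb h ^ k := by simp
        _ ≤ _ := Nat.mul_le_mul_right _ (by omega)
    · obtain ⟨J', hJ'⟩ : ∃ J', J = J' + 2 := ⟨J - 2, by omega⟩
      rw [hJ', Finset.sum_range_succ, Finset.sum_range_succ]
      have h4 : ∑ j ∈ range (J' + 1), bb h ^ (min k (mm h (j + 1) + 3 + ll h j)) ≤
          2 * bb h ^ k := by
        calc _ ≤ ∑ j ∈ range (J' + 1), bb h ^ mm h (j + 2) := by
              refine Finset.sum_le_sum fun j _ => Nat.pow_le_pow_right (bb_pos h) ?_
              refine (min_le_right _ _).trans ?_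
              have h5 := ll_le_ss_succ h j
              have h6 : mm h (j + 2) = mm h (j + 1) + ss h (j + 1) := mm_succ h (j + 1)
              omega
          _ ≤ ∑ j ∈ range (J' + 1 + 2), bb h ^ mm h j := by
              rw [Finset.sum_range_succ' _ (J' + 1 + 1), Finset.sum_range_succ' _ (J' + 1)]
              exact (Nat.le_add_right _ _).trans (Nat.le_add_right _ _)
          _ ≤ 2 * bb h ^ mm h (J' + 2) := sum_pow_mm h (J' + 2)
          _ ≤ 2 * bb h ^ k := by
              refine Nat.mul_le_mul_left _ (Nat.pow_le_pow_right (bb_pos h) ?_)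
              rw [← hJ']; exact hJ
      have h5 := hk1 (J' + 1)
      have h6 := hk1 (J' + 2)
      omega
  calc (AA h v ∩ Set.Iio (BB h ^ k)).ncard ≤ ∑ j ∈ range (J + 1), (L j).ncard := h1
    _ ≤ ∑ j ∈ range (J + 1), h * bb h ^ (min k (mm h (j + 1) + 3 + ll h j)) :=
        Finset.sum_le_sum h2
    _ = h * ∑ j ∈ range (J + 1), bb h ^ (min k (mm h (j + 1) + 3 + ll h j)) := by
        rw [Finset.mul_sum]
    _ ≤ h * (4 * bb h ^ k) := Nat.mul_le_mul_left _ h3
    _ = _ := by ring

end Pool.Agent.N885.NQ
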