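import Pool.Agent.N885.NQ.Exc

/-! # Near-counterexamples of every order (project of helper885): uniqueness of the representation
outside the exceptional sets (helper424) -/

set_option autoImplicit false

set_option linter.unusedSectionVars false

namespace Pool.Agent.N885.NQ

open Finset

variable [QPar]

namespace D424

/-- the element of colour `c` with the lower index `e`, the middle digits `w` and the upper part `u` -/
def At (h : ℕ) (v : ℕ → ℕ → ℕ → ℕ) (i k : ℕ) (c e w u : ℕ) : ℕ :=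
  if k < mm h (i + 1) + 2 + e % ll h i then el h v i c e (w + bb h ^ ss h i * u)
  else el h v (i + 1) c (e + NN h i * w) u

/-- the offset -/
def off (h : ℕ) (v : ℕ → ℕ → ℕ → ℕ) (i k : ℕ) (c e : ℕ) : ℕ :=
  if k < mm h (i + 1) + 2 + e % ll h i then kap h i e else v i c e

/-- the constant part -/
def Kt (h : ℕ) (v : ℕ → ℕ → ℕ → ℕ) (i k : ℕ) (c e w : ℕ) : ℕ :=
  if k < mm h (i + 1) + 2 + e % ll h i then pt h v i c e + MM h i * (kap h i e + bb h ^ c * sp h w)
  else pt h v (i + 1) c (e + NN h i * w) + MM h (i + 1) * kap h (i + 1) (e + NN h i * w)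

theorem el_split (h : ℕ) (v : ℕ → ℕ → ℕ → ℕ) (i c e w u : ℕ) (hw : w < bb h ^ ss h i) :
    el h v i c e (w + bb h ^ ss h i * u) =
      pt h v i c e + MM h i * (kap h i e + bb h ^ c * sp h w) +
        MM h (i + 1) * (bb h ^ c * sp h u) := by
  unfold el
  rw [sp_add u hw, MM_succ]
  unfold VV
  ring

theorem el_split' (h : ℕ) (v : ℕ → ℕ → ℕ → ℕ) (i c e u : ℕ) :
    el h v (i + 1) c e u =
      pt h v (i + 1) c e + MM h (i + 1) * kap h (i + 1) e +
        MM h (i + 1) * (bb h ^ c * sp h u) := by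
  unfold el
  ring

theorem At_eq (h : ℕ) (v : ℕ → ℕ → ℕ → ℕ) (i k c e w u : ℕ) (hw : w < bb h ^ ss h i) :
    At h v i k c e w u = Kt h v i k c e w + MM h (i + 1) * (bb h ^ c * sp h u) := by
  unfold At Kt
  split_ifs
  · exact el_split h v i c e w u hw
  · exact el_split' h v i c _ u

/-- residue of an element of level `i` -/
theorem el_res (h : ℕ) (v : ℕ → ℕ → ℕ → ℕ) (i c e w u : ℕ) (hw : w < bb h ^ ss h i) :
    pt h v i c e + MM h i * (kap h i e + bb h ^ c * sp h w) ≡
      el h v i c e (w + bb h ^ ss h i * u) [MOD MM h (i + 1)] := by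
  rw [el_split h v i c e w u hw]
  simp [Nat.ModEq]

/-- residue of an element of level `i + 1` -/
theorem el_res' (h : ℕ) (v : ℕ → ℕ → ℕ → ℕ) (i c e w u : ℕ) (he : e < NN h i) :
    pt h v i c e + MM h i * (v i c e + bb h ^ c * sp h w) ≡
      el h v (i + 1) c (e + NN h i * w) u [MOD MM h (i + 1)] := by
  have h1 := pt_succ_modEq v h i c (e + NN h i * w)
  rw [Nat.add_mul_mod_self_left, Nat.mod_eq_of_lt he, Nat.add_mul_div_left _ _ (NN_pos h i),
    Nat.div_eq_of_lt he, zero_add] at h1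
  refine h1.symm.trans ?_
  unfold el
  simp [Nat.ModEq]

theorem At_res (h : ℕ) (v : ℕ → ℕ → ℕ → ℕ) (i k c e w u : ℕ) (he : e < NN h i)
    (hw : w < bb h ^ ss h i) :
    pt h v i c e + MM h i * (off h v i k c e + bb h ^ c * sp h w) ≡
      At h v i k c e w u [MOD MM h (i + 1)] := by
  unfold At off
  split_ifs
  · exact el_res h v i c e w u hw
  · exact el_res' h v i c e w u he

theorem exists_fn (n : ℕ) (s : Multiset ℕ) (hs : Multiset.card s = n) :
    ∃ a : Fin n → ℕ, s = Multiset.map a univ.val := by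
  obtain ⟨l, rfl⟩ := Quot.exists_rep s
  have hl : l.length = n := hs
  subst hl
  refine ⟨l.get, ?_⟩
  rw [Fin.univ_val_map, List.ofFn_get]
  rfl

/-- the levels -/
theorem level {h : ℕ} (hh : 2 ≤ h) (v : ℕ → ℕ → ℕ → ℕ) {i k g : ℕ} (hi : 1 ≤ i)
    (hk1 : mm h (i + 1) + 2 ≤ k) (hk2 : k < mm h (i + 2) + 2) (hg : g + ll h (i - 1) + 1 ≤ ss h i)
    {a : ℕ} (ha : a ∈ AA h v) (h1 : BB h ^ (k - g) ≤ a) (h2 : a < BB h ^ (k + 1)) :
    ∃ (c : Fin h) (e w u : ℕ) (o : Bool), e < NN h i ∧ w < bb h ^ ss h i ∧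
      a = (if o then el h v (i + 1) c (e + NN h i * w) u
        else el h v i c e (w + bb h ^ ss h i * u)) ∧
      (o = false → a < BB h ^ (mm h (i + 1) + 4 + e % ll h i)) ∧
      (o = true → BB h ^ (mm h (i + 1) + 2 + e % ll h i) ≤ a) := by
  obtain ⟨j, c, e, t, hc, he, ht, rfl⟩ := ha
  have hh0 : 0 < h := by omega
  have hB : 1 < BB h := two_le_BB hh0
  have hj1 : i ≤ j := by
    by_contra hlt
    push Not at hlt
    have h3 := el_upper v hh0 hc ht
    have h4 : mm h (j + 1) + 4 + e % ll h j ≤ k - g := by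
      have h5 := mod_ll_lt h j e
      have h6 : mm h (i + 1) = mm h i + ss h i := mm_succ h i
      have h7 : mm h (j + 1) + 3 + ll h j ≤ mm h i + 3 + ll h (i - 1) := by
        rcases Nat.lt_or_ge (j + 1) i with h8 | h8
        · have h9 := ll_le_ss_succ h j
          have h10 : mm h (j + 2) = mm h (j + 1) + ss h (j + 1) := mm_succ h (j + 1)
          have h11 : mm h (j + 2) ≤ mm h i := mm_mono h (by omega)
          omega
        · have h9 : j = i - 1 := by omega
          have h10 : j + 1 = i := by omega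
          rw [h10, h9]
      omega
    have h5 : BB h ^ (mm h (j + 1) + 4 + e % ll h j) ≤ BB h ^ (k - g) :=
      Nat.pow_le_pow_right (by omega) h4
    omega
  have hj2 : j ≤ i + 1 := by
    by_contra hlt
    push Not at hlt
    have h3 := el_lower' v (h := h) (i := j) (by omega) c e t
    have h4 : mm h (i + 2) ≤ mm h j := mm_mono h (by omega)
    have h5 : BB h ^ (k + 1) ≤ BB h ^ (mm h j + 2) := Nat.pow_le_pow_right (by omega) (by omega)
    omega
  rcases Nat.lt_or_ge i j with h3 | h3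
  · obtain rfl : j = i + 1 := by omega
    refine ⟨⟨c, hc⟩, e % NN h i, e / NN h i, t, true, Nat.mod_lt _ (NN_pos h i), div_NN_lt he,
      ?_, fun h => by simp at h, fun _ => el_lower v h i c e t⟩
    rw [if_pos rfl, Nat.mod_add_div]
  · obtain rfl : j = i := by omega
    refine ⟨⟨c, hc⟩, e, t % bb h ^ ss h j, t / bb h ^ ss h j, false, he,
      Nat.mod_lt _ (Nat.pow_pos (bb_pos h)), ?_, fun _ => el_upper v hh0 hc ht,
      fun h => by simp at h⟩
    rw [if_neg (by simp), Nat.mod_add_div]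

/-- the canonical form of a representation -/
theorem canon {h : ℕ} (hh : 2 ≤ h) (v : ℕ → ℕ → ℕ → ℕ) {i k g : ℕ} (hi : 1 ≤ i)
    (hk1 : mm h (i + 1) + 2 ≤ k) (hk2 : k < mm h (i + 2) + 2) (hg : g + ll h (i - 1) + 1 ≤ ss h i)
    {n : ℕ} (hn1 : BB h ^ k ≤ n) (hn2 : n < BB h ^ (k + 1)) (hE1 : n ∉ E1 h v k g)
    (hE2 : n ∉ E2 h v i k) (hE3 : n ∉ E3 h v i k g) {s : Multiset ℕ} (hs : Multiset.card s = h)
    (hsA : ∀ a ∈ s, a ∈ AA h v) (hsn : s.sum = n) :
    ∃ e w u : Fin h → ℕ, (∀ c, e c < NN h i) ∧ (∀ c, w c < bb h ^ ss h i) ∧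
      s = Multiset.map (fun c : Fin h => At h v i k c (e c) (w c) (u c)) univ.val := by
  have hB : 1 < BB h := two_le_BB (by omega)
  have hlow : ∀ a ∈ s, BB h ^ (k - g) ≤ a := by
    intro a ha
    by_contra hlt
    push Not at hlt
    exact hE1 ⟨hn1, hn2, s, hs, hsA, hsn, a, ha, hlt⟩
  have hup : ∀ a ∈ s, a < BB h ^ (k + 1) := by
    intro a ha
    have : a ≤ s.sum := Multiset.single_le_sum (fun x _ => Nat.zero_le x) a ha
    omega
  obtain ⟨a, rfl⟩ := exists_fn h s hs
  have hmem : ∀ l : Fin h, a l ∈ Multiset.map a univ.val := fun l =>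
    Multiset.mem_map_of_mem a (mem_univ l)
  have hall := fun l : Fin h => level hh v hi hk1 hk2 hg (hsA _ (hmem l)) (hlow _ (hmem l))
    (hup _ (hmem l))
  choose c e w u o he hw hae ho1 ho2 using hall
  have hres : ∀ l : Fin h, (pt h v i (c l) (e l) + MM h i *
      ((if o l then v i (c l) (e l) else kap h i (e l)) + bb h ^ (c l : ℕ) * sp h (w l))) ≡ a l
      [MOD MM h (i + 1)] := by
    intro l
    have h1 := hae l
    cases h2 : o l with
    | false =>
      rw [h2, if_neg (by simp)] at h1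
      rw [if_neg (by simp)]
      conv_rhs => rw [h1]
      exact el_res h v i (c l) (e l) (w l) (u l) (hw l)
    | true =>
      rw [h2, if_pos rfl] at h1
      rw [if_pos rfl]
      conv_rhs => rw [h1]
      exact el_res' h v i (c l) (e l) (w l) (u l) (he l)
  have hsum : ∑ l : Fin h, a l = n := hsn
  have hsumres : (∑ l : Fin h, (pt h v i (c l) (e l) + MM h i *
      ((if o l then v i (c l) (e l) else kap h i (e l)) + bb h ^ (c l : ℕ) * sp h (w l)))) ≡ n
      [MOD MM h (i + 1)] := by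
    rw [← hsum]
    exact Nat.ModEq.sum fun l _ => hres l
  have hinj : Function.Injective c := by
    by_contra hni
    exact hE2 ⟨hn2, c, e, w, o, hni, he, hw, hsumres⟩
  have hbij : Function.Bijective c := Finite.injective_iff_bijective.1 hinj
  let σ : Fin h ≃ Fin h := Equiv.ofBijective c hbij
  have hσ : ∀ x, c (σ.symm x) = x := fun x => σ.apply_symm_apply x
  have hpt : (∑ x : Fin h, pt h v i x (e (σ.symm x))) ≡ n [MOD MM h i] := by
    have h1 : (∑ l : Fin h, pt h v i (c l) (e l)) ≡ n [MOD MM h i] := by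
      have h2 := hsumres.of_dvd (MM_dvd (Nat.le_succ i))
      rw [Finset.sum_add_distrib, ← Finset.mul_sum] at h2
      refine Nat.ModEq.trans ?_ h2
      simp [Nat.ModEq]
    have h3 : (∑ x : Fin h, pt h v i x (e (σ.symm x))) = ∑ l : Fin h, pt h v i (c l) (e l) := by
      rw [← Equiv.sum_comp σ]
      refine Finset.sum_congr rfl fun l _ => ?_
      rw [σ.symm_apply_apply]
      rfl
    rw [h3]
    exact h1
  have h3 : ∀ x : Fin h, ¬ (k ≤ mm h (i + 1) + 2 + e (σ.symm x) % ll h i + g + 1 ∧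
      mm h (i + 1) + 2 + e (σ.symm x) % ll h i ≤ k) := by
    intro x hx
    exact hE3 ⟨hn2, fun y => e (σ.symm y), fun y => he _, hpt, x, hx⟩
  refine ⟨fun x => e (σ.symm x), fun x => w (σ.symm x), fun x => u (σ.symm x), fun x => he _,
    fun x => hw _, ?_⟩
  have h4 : Multiset.map a univ.val = Multiset.map (fun x : Fin h => a (σ.symm x)) univ.val := by
    have : Multiset.map (fun x : Fin h => a (σ.symm x)) univ.val =
        Multiset.map a (Multiset.map σ.symm univ.val) := by
      rw [Multiset.map_map]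
      rfl
    rw [this, Multiset.map_univ_val_equiv]
  rw [h4]
  refine Multiset.map_congr rfl fun x _ => ?_
  have h5 := h3 x
  have h6 := hae (σ.symm x)
  have h7 := ho1 (σ.symm x)
  have h8 := ho2 (σ.symm x)
  have h9 := hlow _ (hmem (σ.symm x))
  have h10 := hup _ (hmem (σ.symm x))
  beta_reduce
  unfold At
  cases h2 : o (σ.symm x) with
  | false =>
    have h11 := h7 h2
    have h12 : k - g < mm h (i + 1) + 4 + e (σ.symm x) % ll h i :=
      (Nat.pow_lt_pow_iff_right hB).1 (lt_of_le_of_lt h9 h11)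
    rw [if_pos (by omega)]
    rw [h2, if_neg (by simp), hσ] at h6
    exact h6
  | true =>
    have h11 := h8 h2
    have h12 : mm h (i + 1) + 2 + e (σ.symm x) % ll h i < k + 1 :=
      (Nat.pow_lt_pow_iff_right hB).1 (lt_of_le_of_lt h11 h10)
    rw [if_neg (by omega)]
    rw [h2, if_pos rfl, hσ] at h6
    exact h6

end D424

open D424 in
/-- NC/DET -/
theorem unqDet {h : ℕ} (hh : 2 ≤ h) : S_UnqDet h := by
  intro v i k g hi hk1 hk2 hg n hn1 hn2 hE1 hE2 hE3 s s' hs hsA hsn hs' hsA' hsn'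
  have hh0 : 0 < h := by omega
  obtain ⟨e, w, u, he, hw, hse⟩ := canon hh v hi hk1 hk2 hg hn1 hn2 hE1 hE2 hE3 hs hsA hsn
  obtain ⟨e', w', u', he', hw', hse'⟩ := canon hh v hi hk1 hk2 hg hn1 hn2 hE1 hE2 hE3 hs' hsA' hsn'
  have hsum : ∑ c : Fin h, At h v i k c (e c) (w c) (u c) = n := by
    rw [← hsn, hse]
    rfl
  have hsum' : ∑ c : Fin h, At h v i k c (e' c) (w' c) (u' c) = n := by
    rw [← hsn', hse']
    rfl
  have hres : (∑ c : Fin h, (pt h v i c (e c) + MM h i * (off h v i k c (e c) +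
      bb h ^ (c : ℕ) * sp h (w c)))) ≡ n [MOD MM h (i + 1)] := by
    rw [← hsum]
    exact Nat.ModEq.sum fun c _ => At_res h v i k c (e c) (w c) (u c) (he c) (hw c)
  have hres' : (∑ c : Fin h, (pt h v i c (e' c) + MM h i * (off h v i k c (e' c) +
      bb h ^ (c : ℕ) * sp h (w' c)))) ≡ n [MOD MM h (i + 1)] := by
    rw [← hsum']
    exact Nat.ModEq.sum fun c _ => At_res h v i k c (e' c) (w' c) (u' c) (he' c) (hw' c)
  obtain ⟨h1, h2⟩ := mixed_inj v hh0 (dec_inj v hh0 i) (fun c x => off h v i k c x) e w e' w'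
    he he' hw hw' (hres.trans hres'.symm)
  subst h1
  subst h2
  have h3 : ∀ x : Fin h → ℕ, ∑ c : Fin h, At h v i k c (e c) (w c) (x c) =
      (∑ c : Fin h, Kt h v i k c (e c) (w c)) + MM h (i + 1) * comb h x := by
    intro x
    unfold comb
    rw [Finset.mul_sum, ← Finset.sum_add_distrib]
    exact Finset.sum_congr rfl fun c _ => At_eq h v i k c (e c) (w c) (x c) (hw c)
  have h4 : comb h u = comb h u' := by
    have h5 := hsum.trans hsum'.symm
    rw [h3 u, h3 u'] at h5
    exact Nat.eq_of_mul_eq_mul_left (MM_pos h (i + 1)) (by omega)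
  rw [hse, hse', comb_inj hh0 h4]

end Pool.Agent.N885.NQ
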