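import Pool.Agent.N885.NQ.Sys

/-! # Near-counterexamples of every order: size and residues of the elements -/

set_option linter.unusedSectionVars false

namespace Pool.Agent.N885.NQ

open Finset

variable [QPar]

variable (v : ℕ → ℕ → ℕ → ℕ)

theorem ll_le_ss (h i : ℕ) : ll h i + 5 ≤ ss h i := by
  have := two_lg_le h i
  unfold ll ss; omega

theorem ll_le_ss_succ (h i : ℕ) : ll h i + 5 ≤ ss h (i + 1) := by
  have := lg_mono h (Nat.le_succ i)
  have := two_lg_le h (i + 1)
  unfold ll ss; simp only [Nat.succ_eq_add_one] at *; omega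

theorem mod_ll_lt (h i e : ℕ) : e % ll h i < ll h i := Nat.mod_lt _ (ll_pos h i)

theorem kap_succ (h i e : ℕ) : kap h (i + 1) e = BB h ^ (2 + (e % NN h i) % ll h i) := rfl

theorem kap_le (h i e : ℕ) : kap h i e ≤ BB h ^ (ss h i - 4) := by
  cases i with
  | zero => simp [kap]
  | succ i =>
    rw [kap_succ]
    apply Nat.pow_le_pow_right (BB_pos h)
    have := ll_le_ss_succ h i
    have := mod_ll_lt h i (e % NN h i)
    omega

/-- elements modulo `M i` -/
theorem el_mod_self (h i c e t : ℕ) : el h v i c e t % MM h i = pt h v i c e := by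
  unfold el
  rw [Nat.add_mul_mod_self_left, Nat.mod_eq_of_lt (pt_lt v h i c e)]

/-- elements modulo `M j` -/
theorem el_mod {h i j : ℕ} (hij : j ≤ i) (c e t : ℕ) (he : e < NN h i) :
    el h v i c e t % MM h j = pt h v j c (e % NN h j) := by
  rw [← pt_mod v hij c e he, ← el_mod_self v h i c e t, Nat.mod_mod_of_dvd _ (MM_dvd hij)]

/-- elements of level `i + 1` are at least `B` to the threshold of their predecessor -/
theorem el_lower (h i c e t : ℕ) :
    BB h ^ (mm h (i + 1) + 2 + (e % NN h i) % ll h i) ≤ el h v (i + 1) c e t := by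
  unfold el
  rw [kap_succ, add_assoc, pow_add]
  have : MM h (i + 1) = BB h ^ mm h (i + 1) := rfl
  rw [← this, mul_add]
  omega

/-- elements of level `i ≥ 1` are at least `B ^ (m i + 2)` -/
theorem el_lower' {h i : ℕ} (hi : 1 ≤ i) (c e t : ℕ) :
    BB h ^ (mm h i + 2) ≤ el h v i c e t := by
  obtain ⟨j, rfl⟩ : ∃ j, i = j + 1 := ⟨i - 1, by omega⟩
  refine le_trans ?_ (el_lower v h j c e t)
  exact Nat.pow_le_pow_right (BB_pos h) (by omega)

/-- upper bound -/
theorem el_upper {h : ℕ} (hh : 0 < h) {i c e t : ℕ} (hc : c < h)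
    (ht : t < bb h ^ (ss h i + 3 + e % ll h i)) :
    el h v i c e t < BB h ^ (mm h (i + 1) + 4 + e % ll h i) := by
  have h1 : bb h ^ c * sp h t < BB h ^ (ss h i + 3 + e % ll h i) := (csp_lt_iff hc _ _).mpr ht
  have h2 := kap_le h i e
  have h3 := pt_lt v h i c e
  have h4 : BB h ^ (ss h i - 4) ≤ BB h ^ (ss h i + 3 + e % ll h i) :=
    Nat.pow_le_pow_right (BB_pos h) (by omega)
  have h5 : 2 ≤ BB h := two_le_BB hh
  have h6 : BB h ^ (mm h (i + 1) + 4 + e % ll h i) =
      MM h i * (BB h * BB h ^ (ss h i + 3 + e % ll h i)) := by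
    rw [mm_succ]; unfold MM; rw [← pow_succ', ← pow_add]; congr 1; ring
  rw [h6]
  unfold el
  calc pt h v i c e + MM h i * (kap h i e + bb h ^ c * sp h t)
      < MM h i + MM h i * (kap h i e + bb h ^ c * sp h t) := by omega
    _ = MM h i * (kap h i e + (bb h ^ c * sp h t + 1)) := by ring
    _ ≤ MM h i * (BB h ^ (ss h i + 3 + e % ll h i) + BB h ^ (ss h i + 3 + e % ll h i)) := by
        apply Nat.mul_le_mul_left; omega
    _ = MM h i * (2 * BB h ^ (ss h i + 3 + e % ll h i)) := by ring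
    _ ≤ _ := Nat.mul_le_mul_left _ (Nat.mul_le_mul_right _ h5)

theorem mem_AA {h : ℕ} {a : ℕ} : a ∈ AA h v ↔ ∃ i c e t : ℕ, c < h ∧ e < NN h i ∧
    t < bb h ^ (ss h i + 3 + e % ll h i) ∧ a = el h v i c e t := Iff.rfl

/-- `t` is bounded by the size of the element -/
theorem t_lt_of_el_lt {h i c e t k : ℕ} (hc : c < h) (hk : mm h i ≤ k)
    (hlt : el h v i c e t < BB h ^ k) : t < bb h ^ (k - mm h i) := by
  rw [← csp_lt_iff hc]
  have h1 : MM h i * (bb h ^ c * sp h t) < MM h i * BB h ^ (k - mm h i) := by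
    have h2 : MM h i * BB h ^ (k - mm h i) = BB h ^ k := by
      unfold MM; rw [← pow_add]; congr 1; omega
    rw [h2]
    refine lt_of_le_of_lt ?_ hlt
    unfold el
    rw [mul_add]; omega
  exact lt_of_mul_lt_mul_left h1 (Nat.zero_le _)

end Pool.Agent.N885.NQ
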