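import Pool.Agent.N885.NQ.El

/-! # Near-counterexamples of every order: exceptional sets, statements -/

set_option linter.unusedSectionVars false

namespace Pool.Agent.N885.NQ

open Finset Filter

variable [QPar]

/-- `n ∈ [B^k, B^(k+1))` with a representation containing a small element -/
def E1 (h : ℕ) (v : ℕ → ℕ → ℕ → ℕ) (k g : ℕ) : Set ℕ :=
  {n | BB h ^ k ≤ n ∧ n < BB h ^ (k + 1) ∧ ∃ s : Multiset ℕ, Multiset.card s = h ∧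
    (∀ a ∈ s, a ∈ AA h v) ∧ s.sum = n ∧ ∃ a ∈ s, a < BB h ^ (k - g)}

/-- `n < B ^ (k+1)` whose residue modulo `M (i+1)` comes from a tuple with a repeated colour -/
def E2 (h : ℕ) (v : ℕ → ℕ → ℕ → ℕ) (i k : ℕ) : Set ℕ :=
  {n | n < BB h ^ (k + 1) ∧ ∃ (c : Fin h → Fin h) (e w : Fin h → ℕ) (o : Fin h → Bool),
    ¬ Function.Injective c ∧ (∀ l, e l < NN h i) ∧ (∀ l, w l < bb h ^ ss h i) ∧
    (∑ l : Fin h, (pt h v i (c l) (e l) + MM h i *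
      ((if o l then v i (c l) (e l) else kap h i (e l)) + bb h ^ (c l : ℕ) * sp h (w l)))) ≡ n
      [MOD MM h (i + 1)]}

/-- `n < B ^ (k+1)` such that the threshold of one of the indices is in `[k - g - 1, k]` -/
def E3 (h : ℕ) (v : ℕ → ℕ → ℕ → ℕ) (i k g : ℕ) : Set ℕ :=
  {n | n < BB h ^ (k + 1) ∧ ∃ e : Fin h → ℕ, (∀ c, e c < NN h i) ∧
    (∑ c : Fin h, pt h v i c (e c)) ≡ n [MOD MM h i] ∧
    ∃ c, k ≤ mm h (i + 1) + 2 + e c % ll h i + g + 1 ∧ mm h (i + 1) + 2 + e c % ll h i ≤ k}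

/-- uniqueness outside the exceptional sets -/
def S_UnqDet (h : ℕ) : Prop := ∀ (v : ℕ → ℕ → ℕ → ℕ) (i k g : ℕ), 1 ≤ i →
  mm h (i + 1) + 2 ≤ k → k < mm h (i + 2) + 2 → g + ll h (i - 1) + 1 ≤ ss h i →
  ∀ n : ℕ, BB h ^ k ≤ n → n < BB h ^ (k + 1) → n ∉ E1 h v k g → n ∉ E2 h v i k →
    n ∉ E3 h v i k g → ∀ s s' : Multiset ℕ, Multiset.card s = h → (∀ a ∈ s, a ∈ AA h v) →
      s.sum = n → Multiset.card s' = h → (∀ a ∈ s', a ∈ AA h v) → s'.sum = n → s = s'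

def S_E1 (h : ℕ) : Prop := ∀ v : ℕ → ℕ → ℕ → ℕ, ∃ C : ℕ, ∀ k g : ℕ, g ≤ k →
  (E1 h v k g).ncard * bb h ^ g ≤ C * BB h ^ k

def S_E2 (h : ℕ) : Prop := ∀ (v : ℕ → ℕ → ℕ → ℕ) (i k : ℕ), mm h (i + 1) ≤ k + 1 →
  (E2 h v i k).ncard * (bb h ^ 2) ^ ss h i ≤
    (2 * h) ^ h * (2 * bb h - 1) ^ ss h i * BB h ^ (k + 1)

def S_E3 (h : ℕ) : Prop := ∀ (v : ℕ → ℕ → ℕ → ℕ) (i k g : ℕ), mm h i ≤ k + 1 →
  (E3 h v i k g).ncard * NN h i ≤ h * (g + 2) * (NN h i / ll h i + 1) * BB h ^ (k + 1)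

end Pool.Agent.N885.NQ
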