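import Pool.Agent.N885.NQ.Exc

/-! # Near-counterexamples of every order: counting the exceptional sets -/

set_option linter.unusedSectionVars false

namespace Pool.Agent.N885.NQ

open Finset Filter

variable [QPar]

namespace X118

/-- counting numbers below `X` whose residue lies in a finite set -/
theorem ncard_res {M X : ℕ} (hMX : M ∣ X) (R : Finset ℕ) (S : Set ℕ)
    (hS : ∀ n ∈ S, n < X ∧ n % M ∈ R) : S.ncard * M ≤ R.card * X := by
  obtain ⟨q, rfl⟩ := hMX
  have h1 : S.ncard ≤ (R ×ˢ range q).card := by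
    rw [← Set.ncard_coe_finset]
    refine Set.ncard_le_ncard_of_injOn (fun n => (n % M, n / M)) ?_ ?_ (Finset.finite_toSet _)
    · intro n hn
      obtain ⟨h1, h2⟩ := hS n hn
      simp only [coe_product, Set.mem_prod, mem_coe, mem_range]
      exact ⟨h2, Nat.div_lt_of_lt_mul h1⟩
    · intro n _ n' _ hnn
      simp only [Prod.mk.injEq] at hnn
      rw [← Nat.mod_add_div n M, ← Nat.mod_add_div n' M, hnn.1, hnn.2]
  rw [card_product, card_range] at h1
  calc S.ncard * M ≤ (R.card * q) * M := Nat.mul_le_mul_right _ h1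
    _ = R.card * (M * q) := by ring

theorem exists_fun (n : ℕ) : ∀ t : Multiset ℕ, Multiset.card t = n →
    ∃ f : Fin n → ℕ, (∀ j, f j ∈ t) ∧ ∑ j, f j = t.sum := by
  induction n with
  | zero =>
    intro t ht
    rw [Multiset.card_eq_zero] at ht
    subst ht
    exact ⟨fun j => j.elim0, fun j => j.elim0, by simp⟩
  | succ n ih =>
    intro t ht
    obtain ⟨a, ha⟩ := Multiset.card_pos_iff_exists_mem.mp (by omega : 0 < Multiset.card t)
    obtain ⟨t', rfl⟩ := Multiset.exists_cons_of_mem ha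
    have ht' : Multiset.card t' = n := by
      rw [Multiset.card_cons] at ht; omega
    obtain ⟨f, hf1, hf2⟩ := ih t' ht'
    refine ⟨Fin.cons a f, ?_, ?_⟩
    · intro j
      refine Fin.cases ?_ (fun j => ?_) j
      · simp
      · simp only [Fin.cons_succ]
        exact Multiset.mem_cons_of_mem (hf1 j)
    · rw [Fin.sum_univ_succ]
      simp only [Fin.cons_zero, Fin.cons_succ, Multiset.sum_cons, hf2]

/-- the sums `sp w + sp w'` -/
theorem exists_D (h s : ℕ) : ∃ D : Finset ℕ, D.card ≤ (2 * bb h - 1) ^ s ∧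
    ∀ w w' : ℕ, w < bb h ^ s → w' < bb h ^ s → sp h w + sp h w' ∈ D := by
  induction s with
  | zero =>
    refine ⟨{0}, by simp, ?_⟩
    intro w w' hw hw'
    simp only [pow_zero, Nat.lt_one_iff] at hw hw'
    subst hw; subst hw'
    simp [sp_zero]
  | succ s ih =>
    obtain ⟨D, hD1, hD2⟩ := ih
    refine ⟨(range (2 * bb h - 1) ×ˢ D).image (fun p => p.1 + BB h * p.2), ?_, ?_⟩
    · refine card_image_le.trans ?_
      rw [card_product, card_range, pow_succ']
      exact Nat.mul_le_mul_left _ hD1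
    · intro w w' hw hw'
      have hb := bb_pos h
      rw [mem_image]
      refine ⟨(w % bb h + w' % bb h, sp h (w / bb h) + sp h (w' / bb h)), ?_, ?_⟩
      · rw [mem_product]
        refine ⟨?_, hD2 _ _ ?_ ?_⟩
        · rw [mem_range]
          have h1 := Nat.mod_lt w hb
          have h2 := Nat.mod_lt w' hb
          show w % bb h + w' % bb h < 2 * bb h - 1
          omega
        · rw [Nat.div_lt_iff_lt_mul hb, ← pow_succ]; exact hw
        · rw [Nat.div_lt_iff_lt_mul hb, ← pow_succ]; exact hw'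
      · rw [sp_rec h w, sp_rec h w']
        show w % bb h + w' % bb h + BB h * (sp h (w / bb h) + sp h (w' / bb h)) = _
        ring

/-- the sums for a fixed colouring with a repeated colour -/
theorem exists_T {h : ℕ} (s : ℕ) (c : Fin h → Fin h) (hc : ¬ Function.Injective c) :
    ∃ T : Finset ℕ, T.card * (bb h ^ s) ^ 2 ≤ (bb h ^ s) ^ h * (2 * bb h - 1) ^ s ∧
      ∀ w : Fin h → ℕ, (∀ l, w l < bb h ^ s) →
        (∑ l, bb h ^ (c l : ℕ) * sp h (w l)) ∈ T := by
  obtain ⟨D, hD1, hD2⟩ := exists_D h s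
  unfold Function.Injective at hc
  push Not at hc
  obtain ⟨l1, l2, hcc, hne⟩ := hc
  set X := bb h ^ s with hX
  let P : Finset (Fin h → ℕ) :=
    Fintype.piFinset (fun l => if l = l1 ∨ l = l2 then ({0} : Finset ℕ) else range X)
  have hP : P.card * X ^ 2 = X ^ h := by
    have e1 : P.card = ∏ l : Fin h, (if l = l1 ∨ l = l2 then 1 else X) := by
      rw [Fintype.card_piFinset]
      refine Finset.prod_congr rfl fun l _ => ?_
      split_ifs <;> simp
    have e2 : (∏ l : Fin h, (if l = l1 then X else 1)) = X := by simp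
    have e3 : (∏ l : Fin h, (if l = l2 then X else 1)) = X := by simp
    have e4 : (∏ _l : Fin h, X) = X ^ h := by simp
    have e5 : P.card * X ^ 2 = (∏ l : Fin h, (if l = l1 ∨ l = l2 then 1 else X)) *
        ((∏ l : Fin h, (if l = l1 then X else 1)) * (∏ l : Fin h, (if l = l2 then X else 1))) := by
      rw [e1, e2, e3, sq]
    rw [e5, ← Finset.prod_mul_distrib, ← Finset.prod_mul_distrib, ← e4]
    refine Finset.prod_congr rfl fun l _ => ?_
    by_cases h1 : l = l1
    · have h2 : l ≠ l2 := by rintro rfl; exact hne h1.symm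
      simp [h1, hne]
    · by_cases h2 : l = l2
      · have h3 : l2 ≠ l1 := fun h => hne h.symm
        simp [h2, h3]
      · simp [h1, h2]
  refine ⟨(P ×ˢ D).image (fun p => (∑ l, bb h ^ (c l : ℕ) * sp h (p.1 l)) +
    bb h ^ (c l1 : ℕ) * p.2), ?_, ?_⟩
  · calc _ ≤ (P ×ˢ D).card * X ^ 2 := Nat.mul_le_mul_right _ card_image_le
      _ = (P.card * X ^ 2) * D.card := by rw [card_product]; ring
      _ = X ^ h * D.card := by rw [hP]
      _ ≤ _ := Nat.mul_le_mul_left _ hD1
  · intro w hw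
    rw [mem_image]
    refine ⟨(fun l => if l = l1 ∨ l = l2 then 0 else w l, sp h (w l1) + sp h (w l2)), ?_, ?_⟩
    · rw [mem_product]
      refine ⟨?_, hD2 _ _ (hw _) (hw _)⟩
      rw [Fintype.mem_piFinset]
      intro l
      by_cases h1 : l = l1 ∨ l = l2
      · simp [h1]
      · simp only [h1, if_false, mem_range]
        exact hw l
    · have e1 : ∀ l, bb h ^ (c l : ℕ) * sp h (w l) =
          bb h ^ (c l : ℕ) * sp h (if l = l1 ∨ l = l2 then 0 else w l) +
          ((if l = l1 then bb h ^ (c l1 : ℕ) * sp h (w l1) else 0) +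
          (if l = l2 then bb h ^ (c l1 : ℕ) * sp h (w l2) else 0)) := by
        intro l
        by_cases h1 : l = l1
        · subst h1
          simp [hne, sp_zero]
        · by_cases h2 : l = l2
          · subst h2
            simp [h1, sp_zero, hcc]
          · simp [h1, h2]
      rw [Finset.sum_congr rfl (fun l _ => e1 l), Finset.sum_add_distrib, Finset.sum_add_distrib]
      simp only [Finset.sum_ite_eq', mem_univ, if_true]
      ring

theorem mm_lt_succ (h i : ℕ) : mm h i < mm h (i + 1) := by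
  rw [mm_succ]; have := ss_ge h i; omega

theorem mm_strictMono (h : ℕ) : StrictMono (mm h) := strictMono_nat_of_lt_succ (mm_lt_succ h)

theorem tendsto_lg (h : ℕ) : Tendsto (lg h) atTop atTop := by
  refine tendsto_atTop_atTop_of_monotone (lg_mono h) fun n => ⟨bb h ^ n, ?_⟩
  have h1 : Nat.log (bb h) (bb h ^ n) = n :=
    Nat.log_pow (by have := two_le_bb h; omega) n
  calc n = Nat.log (bb h) (bb h ^ n) := h1.symm
    _ ≤ Nat.log (bb h) (bb h ^ n + 1) := Nat.log_mono_right (by omega)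

theorem tendsto_ss (h : ℕ) : Tendsto (ss h) atTop atTop :=
  tendsto_atTop_mono (fun i => by have := two_lg_le h i; unfold ss; omega) (tendsto_lg h)

theorem tendsto_ll (h : ℕ) : Tendsto (ll h) atTop atTop :=
  tendsto_atTop_mono (fun i => by unfold ll; omega) (tendsto_lg h)

theorem tendsto_NN (h : ℕ) : Tendsto (NN h) atTop atTop := by
  have h1 : Tendsto (mm h) atTop atTop := (mm_strictMono h).tendsto_atTop
  refine tendsto_atTop_mono (fun i => ?_) h1
  unfold NN
  exact (Nat.lt_pow_self (by have := two_le_bb h; omega)).le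

end X118

open X118

theorem e1 {h : ℕ} (hh : 2 ≤ h) (hT : S_Thin h) : S_E1 h := by
  intro v
  obtain ⟨C, hC⟩ := hT v
  refine ⟨C ^ h * bb h ^ (h - 1), fun k g hg => ?_⟩
  have hfin : ∀ k, (AA h v ∩ Set.Iio (BB h ^ k)).Finite := fun k =>
    (Set.finite_Iio _).subset Set.inter_subset_right
  set FA := (hfin (k - g)).toFinset with hFAdef
  set FB := (hfin (k + 1)).toFinset with hFBdef
  have hFA : FA.card ≤ C * bb h ^ (k - g) := by
    rw [← Set.ncard_eq_toFinset_card _ (hfin (k - g))]; exact hC _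
  have hFB : FB.card ≤ C * bb h ^ (k + 1) := by
    rw [← Set.ncard_eq_toFinset_card _ (hfin (k + 1))]; exact hC _
  let P := FA ×ˢ Fintype.piFinset (fun _ : Fin (h - 1) => FB)
  have hsub : E1 h v k g ⊆ ((P.image (fun p => p.1 + ∑ j, p.2 j) : Finset ℕ) : Set ℕ) := by
    rintro n ⟨hn1, hn2, s, hs, hsA, hsum, a, ha, hak⟩
    obtain ⟨t, rfl⟩ := Multiset.exists_cons_of_mem ha
    have ht : Multiset.card t = h - 1 := by
      rw [Multiset.card_cons] at hs; omega
    obtain ⟨f, hf1, hf2⟩ := exists_fun (h - 1) t ht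
    rw [Multiset.sum_cons] at hsum
    rw [mem_coe, mem_image]
    refine ⟨(a, f), ?_, ?_⟩
    · rw [mem_product]
      refine ⟨?_, ?_⟩
      · rw [Set.Finite.mem_toFinset]
        exact ⟨hsA a ha, hak⟩
      · rw [Fintype.mem_piFinset]
        intro j
        rw [Set.Finite.mem_toFinset]
        refine ⟨hsA _ (Multiset.mem_cons_of_mem (hf1 j)), ?_⟩
        have : f j ≤ t.sum := Multiset.le_sum_of_mem (hf1 j)
        show f j < BB h ^ (k + 1)
        omega
    · show a + ∑ j, f j = n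
      rw [hf2, hsum]
  have h1 : (E1 h v k g).ncard ≤ P.card := by
    calc (E1 h v k g).ncard ≤ ((P.image (fun p => p.1 + ∑ j, p.2 j) : Finset ℕ) : Set ℕ).ncard :=
          Set.ncard_le_ncard hsub (Finset.finite_toSet _)
      _ = (P.image (fun p => p.1 + ∑ j, p.2 j)).card := Set.ncard_coe_finset _
      _ ≤ P.card := card_image_le
  have h2 : P.card ≤ (C * bb h ^ (k - g)) * (C * bb h ^ (k + 1)) ^ (h - 1) := by
    rw [card_product, Fintype.card_piFinset]
    simp only [prod_const, card_univ, Fintype.card_fin]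
    exact Nat.mul_le_mul hFA (Nat.pow_le_pow_left hFB _)
  obtain ⟨h', rfl⟩ : ∃ h', h = h' + 1 := ⟨h - 1, by omega⟩
  obtain ⟨k', rfl⟩ : ∃ k', k = k' + g := ⟨k - g, by omega⟩
  simp only [Nat.add_sub_cancel] at h2 ⊢
  calc (E1 (h' + 1) v (k' + g) g).ncard * bb (h' + 1) ^ g
      ≤ ((C * bb (h' + 1) ^ k') * (C * bb (h' + 1) ^ (k' + g + 1)) ^ h') * bb (h' + 1) ^ g :=
        Nat.mul_le_mul_right _ (h1.trans h2)
    _ = C ^ (h' + 1) * bb (h' + 1) ^ h' * BB (h' + 1) ^ (k' + g) := by
        unfold BB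
        rw [mul_pow, ← pow_mul, ← pow_mul]
        have e1 : (k' + g + 1) * h' + k' + g = h' + (h' + 1) * (k' + g) := by ring
        calc C * bb (h' + 1) ^ k' * (C ^ h' * bb (h' + 1) ^ ((k' + g + 1) * h')) * bb (h' + 1) ^ g
            = C ^ (h' + 1) * bb (h' + 1) ^ ((k' + g + 1) * h' + k' + g) := by
              rw [pow_add, pow_add, pow_succ]; ring
          _ = C ^ (h' + 1) * (bb (h' + 1) ^ h' * bb (h' + 1) ^ ((h' + 1) * (k' + g))) := by
              rw [e1, pow_add (bb (h' + 1)) h']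
          _ = _ := by ring

theorem e2 {h : ℕ} (_hh : 2 ≤ h) : S_E2 h := by
  intro v i k hk
  classical
  let T : (Fin h → Fin h) → Finset ℕ := fun c =>
    if hc : Function.Injective c then ∅ else (exists_T (ss h i) c hc).choose
  set X := bb h ^ ss h i with hX
  have hTcard : ∀ c, (T c).card * X ^ 2 ≤ X ^ h * (2 * bb h - 1) ^ ss h i := by
    intro c
    by_cases hc : Function.Injective c
    · simp [T, hc]
    · simp only [T, hc, dif_neg, not_false_eq_true]
      exact (exists_T (ss h i) c hc).choose_spec.1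
  have hTmem : ∀ c, ¬ Function.Injective c → ∀ w : Fin h → ℕ, (∀ l, w l < X) →
        (∑ l, bb h ^ (c l : ℕ) * sp h (w l)) ∈ T c := by
    intro c hc
    simp only [T, hc, dif_neg, not_false_eq_true]
    exact (exists_T (ss h i) c hc).choose_spec.2
  let R : Finset ℕ :=
    (univ : Finset ((Fin h → Fin h) × (Fin h → Bool) × (Fin h → Fin (NN h i)))).biUnion
      (fun p => (T p.1).image (fun t => ((∑ l : Fin h, pt h v i (p.1 l) (p.2.2 l)) +
        MM h i * ((∑ l : Fin h, (if p.2.1 l then v i (p.1 l) (p.2.2 l) else kap h i (p.2.2 l))) + t))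
          % MM h (i + 1)))
  have hR : R.card * X ^ 2 ≤ (h ^ h * (2 ^ h * NN h i ^ h)) * (X ^ h * (2 * bb h - 1) ^ ss h i) := by
    calc R.card * X ^ 2 ≤ (∑ p : (Fin h → Fin h) × (Fin h → Bool) × (Fin h → Fin (NN h i)),
          (T p.1).card) * X ^ 2 := by
          refine Nat.mul_le_mul_right _ (card_biUnion_le.trans ?_)
          exact Finset.sum_le_sum fun p _ => card_image_le
      _ = ∑ p : (Fin h → Fin h) × (Fin h → Bool) × (Fin h → Fin (NN h i)),
          (T p.1).card * X ^ 2 := by rw [Finset.sum_mul]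
      _ ≤ ∑ _p : (Fin h → Fin h) × (Fin h → Bool) × (Fin h → Fin (NN h i)),
          (X ^ h * (2 * bb h - 1) ^ ss h i) := Finset.sum_le_sum fun p _ => hTcard p.1
      _ = _ := by
          rw [Finset.sum_const, card_univ, smul_eq_mul]
          simp only [Fintype.card_prod, Fintype.card_fun, Fintype.card_fin, Fintype.card_bool]
  have hmem : ∀ n ∈ E2 h v i k, n < BB h ^ (k + 1) ∧ n % MM h (i + 1) ∈ R := by
    rintro n ⟨hn, c, e, w, o, hc, he, hw, hmod⟩
    refine ⟨hn, ?_⟩
    rw [mem_biUnion]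
    refine ⟨(c, o, fun l => ⟨e l, he l⟩), mem_univ _, ?_⟩
    rw [mem_image]
    refine ⟨_, hTmem c hc w hw, ?_⟩
    have h1 : (∑ l : Fin h, (pt h v i (c l) (e l) + MM h i *
      ((if o l then v i (c l) (e l) else kap h i (e l)) + bb h ^ (c l : ℕ) * sp h (w l)))) =
      (∑ l : Fin h, pt h v i (c l) (e l)) +
        MM h i * ((∑ l : Fin h, (if o l then v i (c l) (e l) else kap h i (e l))) +
          ∑ l, bb h ^ (c l : ℕ) * sp h (w l)) := by
      rw [Finset.sum_add_distrib, ← Finset.mul_sum, Finset.sum_add_distrib]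
    rw [h1] at hmod
    exact hmod
  have h1 := ncard_res (pow_dvd_pow (BB h) hk : MM h (i + 1) ∣ BB h ^ (k + 1)) R _ hmem
  have hM : MM h (i + 1) = NN h i ^ h * X ^ h := by
    rw [MM_eq, NN_succ, mul_pow]
  have hpos : 0 < NN h i ^ h * X ^ h :=
    Nat.mul_pos (Nat.pow_pos (NN_pos h i)) (Nat.pow_pos (Nat.pow_pos (bb_pos h)))
  have h2 : (bb h ^ 2) ^ ss h i = X ^ 2 := by rw [hX, ← pow_mul, ← pow_mul, mul_comm]
  rw [h2]
  apply Nat.le_of_mul_le_mul_right _ hpos
  calc (E2 h v i k).ncard * X ^ 2 * (NN h i ^ h * X ^ h)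
      = ((E2 h v i k).ncard * MM h (i + 1)) * X ^ 2 := by rw [hM]; ring
    _ ≤ (R.card * BB h ^ (k + 1)) * X ^ 2 := Nat.mul_le_mul_right _ h1
    _ = (R.card * X ^ 2) * BB h ^ (k + 1) := by ring
    _ ≤ _ := Nat.mul_le_mul_right _ hR
    _ = _ := by rw [mul_pow]; ring

theorem e3 {h : ℕ} (_hh : 2 ≤ h) : S_E3 h := by
  intro v i k g hk
  classical
  set A := mm h (i + 1) + 2 with hA
  set N := NN h i with hN
  let W : Finset ℕ := (range N).filter (fun x => k ≤ A + x % ll h i + g + 1 ∧ A + x % ll h i ≤ k)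
  have hW : W.card ≤ (g + 2) * (N / ll h i + 1) := by
    have h1 : W.card ≤ (Icc (k - A - g - 1) (k - A) ×ˢ range (N / ll h i + 1)).card := by
      refine Finset.card_le_card_of_injOn (fun x => (x % ll h i, x / ll h i)) ?_ ?_
      · intro x hx
        have hx' := (mem_filter.mp (mem_coe.mp hx))
        obtain ⟨hx1, hx2, hx3⟩ := hx'
        rw [mem_range] at hx1
        rw [mem_coe, mem_product, mem_Icc, mem_range]
        refine ⟨⟨?_, ?_⟩, ?_⟩
        · show k - A - g - 1 ≤ x % ll h i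
          omega
        · show x % ll h i ≤ k - A
          omega
        · show x / ll h i < N / ll h i + 1
          exact Nat.lt_succ_of_le (Nat.div_le_div_right hx1.le)
      · intro x _ x' _ hxx
        simp only [Prod.mk.injEq] at hxx
        rw [← Nat.mod_add_div x (ll h i), ← Nat.mod_add_div x' (ll h i), hxx.1, hxx.2]
    rw [card_product, card_range, Nat.card_Icc] at h1
    refine h1.trans (Nat.mul_le_mul_right _ ?_)
    omega
  let R : Finset ℕ := (univ : Finset (Fin h)).biUnion (fun c =>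
    (Fintype.piFinset (fun j => if j = c then W else range N)).image
      (fun e => (∑ j : Fin h, pt h v i j (e j)) % MM h i))
  have hcard : ∀ c : Fin h,
      (Fintype.piFinset (fun j : Fin h => if j = c then W else range N)).card * N = W.card * N ^ h := by
    intro c
    rw [Fintype.card_piFinset]
    have e2 : (∏ l : Fin h, (if l = c then N else 1)) = N := by simp
    have e3 : (∏ l : Fin h, (if l = c then W.card else 1)) = W.card := by simp
    have e4 : (∏ _l : Fin h, N) = N ^ h := by simp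
    calc (∏ j : Fin h, (if j = c then W else range N).card) * N
        = (∏ j : Fin h, (if j = c then W else range N).card) *
            (∏ l : Fin h, (if l = c then N else 1)) := by rw [e2]
      _ = (∏ l : Fin h, (if l = c then W.card else 1)) * (∏ _l : Fin h, N) := by
          rw [← Finset.prod_mul_distrib, ← Finset.prod_mul_distrib]
          refine Finset.prod_congr rfl fun l _ => ?_
          split_ifs <;> simp
      _ = _ := by rw [e3, e4]
  have hR : R.card * N ≤ h * W.card * N ^ h := by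
    calc R.card * N ≤ (∑ c : Fin h,
          (Fintype.piFinset (fun j : Fin h => if j = c then W else range N)).card) * N := by
          refine Nat.mul_le_mul_right _ (card_biUnion_le.trans ?_)
          exact Finset.sum_le_sum fun c _ => card_image_le
      _ = ∑ _c : Fin h, W.card * N ^ h := by
          rw [Finset.sum_mul]
          exact Finset.sum_congr rfl fun c _ => hcard c
      _ = _ := by
          rw [Finset.sum_const, card_univ, Fintype.card_fin, smul_eq_mul]; ring
  have hmem : ∀ n ∈ E3 h v i k g, n < BB h ^ (k + 1) ∧ n % MM h i ∈ R := by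
    rintro n ⟨hn, e, he, hmod, c, hc1, hc2⟩
    refine ⟨hn, ?_⟩
    rw [mem_biUnion]
    refine ⟨c, mem_univ _, ?_⟩
    rw [mem_image]
    refine ⟨e, ?_, hmod⟩
    rw [Fintype.mem_piFinset]
    intro j
    by_cases hj : j = c
    · rw [if_pos hj, hj, mem_filter, mem_range]
      exact ⟨he c, hc1, hc2⟩
    · rw [if_neg hj, mem_range]
      exact he j
  have h1 := ncard_res (pow_dvd_pow (BB h) hk : MM h i ∣ BB h ^ (k + 1)) R _ hmem
  have hM : MM h i = N ^ h := MM_eq h i
  have hpos : 0 < N ^ h := Nat.pow_pos (NN_pos h i)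
  apply Nat.le_of_mul_le_mul_right _ hpos
  calc (E3 h v i k g).ncard * N * N ^ h
      = ((E3 h v i k g).ncard * MM h i) * N := by rw [hM]; ring
    _ ≤ (R.card * BB h ^ (k + 1)) * N := Nat.mul_le_mul_right _ h1
    _ = (R.card * N) * BB h ^ (k + 1) := by ring
    _ ≤ (h * W.card * N ^ h) * BB h ^ (k + 1) := Nat.mul_le_mul_right _ hR
    _ ≤ (h * ((g + 2) * (N / ll h i + 1)) * N ^ h) * BB h ^ (k + 1) := by
        refine Nat.mul_le_mul_right _ (Nat.mul_le_mul_right _ (Nat.mul_le_mul_left _ hW))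
    _ = _ := by ring

theorem unq {h : ℕ} (hh : 2 ≤ h) (hT : S_Thin h) (hD : S_UnqDet h) : S_Unq h := by
  intro v ε hε
  obtain ⟨C, hC⟩ := e1 hh hT v
  have hb2 : (2 : ℝ) ≤ bb h := by exact_mod_cast two_le_bb h
  have hb0 : (0 : ℝ) < bb h := by linarith
  have hB0 : (0 : ℝ) < BB h := by exact_mod_cast BB_pos h
  -- choice of `g`
  obtain ⟨g, hg⟩ : ∃ g : ℕ, (C : ℝ) < ε / 4 * (bb h : ℝ) ^ g := by
    obtain ⟨g, hg⟩ := pow_unbounded_of_one_lt (C / (ε / 4)) (by linarith : (1 : ℝ) < bb h)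
    exact ⟨g, by rwa [div_lt_iff₀' (by positivity)] at hg⟩
  -- the bound for `E2`
  have hcast : ((2 * bb h - 1 : ℕ) : ℝ) = 2 * bb h - 1 := by
    rw [Nat.cast_sub (by have := two_le_bb h; omega)]; push_cast; ring
  have h2 : ∀ᶠ i in atTop, (2 * (h : ℝ)) ^ h * (2 * (bb h : ℝ) - 1) ^ ss h i * BB h <
      ε / 4 * ((bb h : ℝ) ^ 2) ^ ss h i := by
    set r : ℝ := (2 * (bb h : ℝ) - 1) / (bb h : ℝ) ^ 2 with hr
    have hr0 : 0 ≤ r := by
      apply div_nonneg (by linarith) (by positivity)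
    have hr1 : r < 1 := by
      rw [hr, div_lt_one (by positivity)]
      nlinarith
    have hlim : Tendsto (fun i => ((2 * (h : ℝ)) ^ h * BB h) * r ^ ss h i) atTop
        (nhds (((2 * (h : ℝ)) ^ h * BB h) * 0)) :=
      ((tendsto_pow_atTop_nhds_zero_of_lt_one hr0 hr1).comp (tendsto_ss h)).const_mul _
    rw [mul_zero] at hlim
    filter_upwards [hlim.eventually (gt_mem_nhds (by positivity : (0 : ℝ) < ε / 4))] with i hi
    rw [hr, div_pow] at hi
    have hpos : (0 : ℝ) < ((bb h : ℝ) ^ 2) ^ ss h i := by positivity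
    rw [← mul_div_assoc, div_lt_iff₀ hpos] at hi
    linarith
  -- the bound for `E3`
  have h3 : ∀ᶠ i in atTop, (h : ℝ) * (g + 2) * ((NN h i / ll h i : ℕ) + 1) * BB h ≤
      ε / 4 * NN h i := by
    set K : ℝ := (h : ℝ) * (g + 2) * BB h with hK
    have hK0 : 0 ≤ K := by positivity
    have t1 : Tendsto (fun i => ε / 8 * (ll h i : ℝ)) atTop atTop :=
      Tendsto.const_mul_atTop (by positivity)
        (tendsto_natCast_atTop_atTop.comp (tendsto_ll h))
    have t2 : Tendsto (fun i => ε / 8 * (NN h i : ℝ)) atTop atTop :=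
      Tendsto.const_mul_atTop (by positivity)
        (tendsto_natCast_atTop_atTop.comp (tendsto_NN h))
    filter_upwards [t1.eventually_ge_atTop K, t2.eventually_ge_atTop K] with i hi1 hi2
    have h5 : ((NN h i / ll h i : ℕ) : ℝ) * ll h i ≤ NN h i := by
      exact_mod_cast Nat.div_mul_le_self (NN h i) (ll h i)
    have h6 : K * ((NN h i / ll h i : ℕ) : ℝ) ≤ ε / 8 * NN h i := by
      calc K * ((NN h i / ll h i : ℕ) : ℝ) ≤ (ε / 8 * (ll h i : ℝ)) * ((NN h i / ll h i : ℕ) : ℝ) :=
            mul_le_mul_of_nonneg_right hi1 (Nat.cast_nonneg _)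
        _ = ε / 8 * (((NN h i / ll h i : ℕ) : ℝ) * ll h i) := by ring
        _ ≤ _ := mul_le_mul_of_nonneg_left h5 (by positivity)
    calc (h : ℝ) * (g + 2) * ((NN h i / ll h i : ℕ) + 1) * BB h
        = K * ((NN h i / ll h i : ℕ) : ℝ) + K := by rw [hK]; ring
      _ ≤ ε / 8 * NN h i + ε / 8 * NN h i := add_le_add h6 hi2
      _ = _ := by ring
  have h4 : ∀ᶠ i in atTop, g + ll h (i - 1) + 1 ≤ ss h i := by
    filter_upwards [(tendsto_lg h).eventually_ge_atTop g] with i hi
    have h5 : lg h (i - 1) ≤ lg h i := lg_mono h (Nat.sub_le i 1)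
    have := two_lg_le h i
    unfold ll ss; omega
  obtain ⟨i0, hi0⟩ := eventually_atTop.1 (h2.and (h3.and (h4.and (eventually_ge_atTop 1))))
  filter_upwards [eventually_ge_atTop g, eventually_ge_atTop (mm h (i0 + 1) + 2)] with k hkg hk
  -- the level
  obtain ⟨i, hii, hi1, hi2⟩ : ∃ i, i0 ≤ i ∧ mm h (i + 1) + 2 ≤ k ∧ k < mm h (i + 2) + 2 := by
    have hex : ∃ j, k < mm h (j + 2) + 2 := by
      refine ⟨k, ?_⟩
      have := (mm_strictMono h).id_le (k + 2)
      simp only [id] at this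
      omega
    classical
    let j := Nat.find hex
    have hj : k < mm h (j + 2) + 2 := Nat.find_spec hex
    have hge : i0 ≤ j := by
      have h5 : mm h (i0 + 1) < mm h (j + 2) := by omega
      have h6 := (mm_strictMono h).lt_iff_lt.mp h5
      omega
    refine ⟨j, hge, ?_, hj⟩
    rcases Nat.eq_zero_or_pos j with h0 | hpos
    · have : i0 = 0 := by omega
      rw [this] at hk
      rw [h0]; exact hk
    · have h5 := Nat.find_min hex (m := j - 1) (by omega)
      have h6 : j - 1 + 2 = j + 1 := by omega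
      rw [h6] at h5
      omega
  obtain ⟨g2, g3, g4, g5⟩ := hi0 i hii
  have hsub : {n : ℕ | BB h ^ k ≤ n ∧ n < BB h ^ (k + 1) ∧ 2 ≤ rep (AA h v) h n} ⊆
      E1 h v k g ∪ E2 h v i k ∪ E3 h v i k g := by
    rintro n ⟨hn1, hn2, hn3⟩
    by_contra hcon
    simp only [Set.mem_union, not_or] at hcon
    obtain ⟨⟨c1, c2⟩, c3⟩ := hcon
    unfold rep at hn3
    have hfin : {s : Multiset ℕ | Multiset.card s = h ∧ (∀ a ∈ s, a ∈ AA h v) ∧
        s.sum = n}.Finite := Set.finite_of_ncard_pos (by omega)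
    obtain ⟨s, hs, s', hs', hne⟩ := (Set.one_lt_ncard hfin).mp (by omega)
    exact hne (hD v i k g g5 hi1 hi2 g4 n hn1 hn2 c1 c2 c3 s s' hs.1 hs.2.1 hs.2.2
      hs'.1 hs'.2.1 hs'.2.2)
  have hf1 : (E1 h v k g).Finite := (Set.finite_Iio (BB h ^ (k + 1))).subset fun n hn => hn.2.1
  have hf2 : (E2 h v i k).Finite := (Set.finite_Iio (BB h ^ (k + 1))).subset fun n hn => hn.1
  have hf3 : (E3 h v i k g).Finite := (Set.finite_Iio (BB h ^ (k + 1))).subset fun n hn => hn.1
  have hle : {n : ℕ | BB h ^ k ≤ n ∧ n < BB h ^ (k + 1) ∧ 2 ≤ rep (AA h v) h n}.ncard ≤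
      (E1 h v k g).ncard + (E2 h v i k).ncard + (E3 h v i k g).ncard := by
    refine (Set.ncard_le_ncard hsub ((hf1.union hf2).union hf3)).trans ?_
    refine (Set.ncard_union_le _ _).trans ?_
    exact Nat.add_le_add_right (Set.ncard_union_le _ _) _
  have hBk : (0 : ℝ) < (BB h : ℝ) ^ k := by positivity
  have b1 : ((E1 h v k g).ncard : ℝ) ≤ ε / 4 * BB h ^ k := by
    have h5 : ((E1 h v k g).ncard : ℝ) * (bb h : ℝ) ^ g ≤ C * (BB h : ℝ) ^ k := by
      exact_mod_cast hC k g hkg
    have hpos : (0 : ℝ) < (bb h : ℝ) ^ g := by positivity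
    refine le_of_mul_le_mul_right (h5.trans ?_) hpos
    calc (C : ℝ) * (BB h : ℝ) ^ k ≤ (ε / 4 * (bb h : ℝ) ^ g) * (BB h : ℝ) ^ k :=
          mul_le_mul_of_nonneg_right hg.le hBk.le
      _ = _ := by ring
  have b2 : ((E2 h v i k).ncard : ℝ) ≤ ε / 4 * BB h ^ k := by
    have h5 : ((E2 h v i k).ncard : ℝ) * ((bb h : ℝ) ^ 2) ^ ss h i ≤
        (2 * (h : ℝ)) ^ h * (2 * (bb h : ℝ) - 1) ^ ss h i * (BB h : ℝ) ^ (k + 1) := by
      rw [← hcast]
      exact_mod_cast e2 hh v i k (by omega)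
    have hpos : (0 : ℝ) < ((bb h : ℝ) ^ 2) ^ ss h i := by positivity
    refine le_of_mul_le_mul_right (h5.trans ?_) hpos
    calc (2 * (h : ℝ)) ^ h * (2 * (bb h : ℝ) - 1) ^ ss h i * (BB h : ℝ) ^ (k + 1)
        = ((2 * (h : ℝ)) ^ h * (2 * (bb h : ℝ) - 1) ^ ss h i * BB h) * (BB h : ℝ) ^ k := by ring
      _ ≤ (ε / 4 * ((bb h : ℝ) ^ 2) ^ ss h i) * (BB h : ℝ) ^ k :=
          mul_le_mul_of_nonneg_right g2.le hBk.le
      _ = _ := by ring
  have b3 : ((E3 h v i k g).ncard : ℝ) ≤ ε / 4 * BB h ^ k := by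
    have h5 : ((E3 h v i k g).ncard : ℝ) * (NN h i : ℝ) ≤
        (h : ℝ) * (g + 2) * ((NN h i / ll h i : ℕ) + 1) * (BB h : ℝ) ^ (k + 1) := by
      have hle : mm h i ≤ k + 1 := by
        have := mm_lt_succ h i
        omega
      exact_mod_cast e3 hh v i k g hle
    have hpos : (0 : ℝ) < (NN h i : ℝ) := by exact_mod_cast NN_pos h i
    refine le_of_mul_le_mul_right (h5.trans ?_) hpos
    calc (h : ℝ) * (g + 2) * ((NN h i / ll h i : ℕ) + 1) * (BB h : ℝ) ^ (k + 1)
        = ((h : ℝ) * (g + 2) * ((NN h i / ll h i : ℕ) + 1) * BB h) * (BB h : ℝ) ^ k := by ring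
      _ ≤ (ε / 4 * NN h i) * (BB h : ℝ) ^ k := mul_le_mul_of_nonneg_right g3 hBk.le
      _ = _ := by ring
  have hle' : (({n : ℕ | BB h ^ k ≤ n ∧ n < BB h ^ (k + 1) ∧ 2 ≤ rep (AA h v) h n}.ncard : ℕ) : ℝ) ≤
      (E1 h v k g).ncard + (E2 h v i k).ncard + (E3 h v i k g).ncard := by
    exact_mod_cast hle
  have hpos : 0 < ε * (BB h : ℝ) ^ k := by positivity
  calc _ ≤ ((E1 h v k g).ncard : ℝ) + (E2 h v i k).ncard + (E3 h v i k g).ncard := hle'
    _ ≤ ε / 4 * BB h ^ k + ε / 4 * BB h ^ k + ε / 4 * BB h ^ k := by gcongr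
    _ ≤ _ := by nlinarith

end Pool.Agent.N885.NQ
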