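import Pool.Agent.N885.NQ.TwoC
import Pool.Agent.N885.NQ.Pol

/-! # Near-counterexamples of every order: the final form of the bounds -/

set_option linter.unusedSectionVars false

namespace Pool.Agent.N885.NQ

open Finset Filter

variable [QPar]

namespace Fi

theorem scale {h n : ℕ} (hh : 2 ≤ h) (hn : n ≠ 0) :
    BB h ^ Nat.log (BB h) n ≤ n ∧ n < BB h ^ (Nat.log (BB h) n + 1) := by
  have hB : 1 < BB h := two_le_BB (by omega)
  exact ⟨Nat.pow_log_le_self _ hn, Nat.lt_pow_succ_log_self hB n⟩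

/-- thinness -/
theorem thin {h : ℕ} (hh : 2 ≤ h) (hT : S_Thin h) (v : ℕ → ℕ → ℕ → ℕ) : ∃ C : ℝ, ∀ x : ℕ,
    ({a : ℕ | a ∈ AA h v ∧ 1 ≤ a ∧ a ≤ x}.ncard : ℝ) ≤ C * (x : ℝ) ^ (1 / (h : ℝ)) := by
  obtain ⟨C, hC⟩ := hT v
  refine ⟨C * bb h, fun x => ?_⟩
  rcases Nat.eq_zero_or_pos x with rfl | hx
  · have h1 : {a : ℕ | a ∈ AA h v ∧ 1 ≤ a ∧ a ≤ 0} = ∅ := by
      ext a; simp only [Set.mem_ofPred_eq, Set.mem_empty_iff_false, iff_false]; omega
    rw [h1]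
    simp only [Set.ncard_empty, Nat.cast_zero]
    positivity
  · obtain ⟨h1, h2⟩ := scale (n := x) hh (by omega)
    set k := Nat.log (BB h) x with hk
    have h3 : {a : ℕ | a ∈ AA h v ∧ 1 ≤ a ∧ a ≤ x} ⊆ AA h v ∩ Set.Iio (BB h ^ (k + 1)) := by
      rintro a ⟨ha1, _, ha2⟩
      exact ⟨ha1, lt_of_le_of_lt ha2 h2⟩
    have h4 : {a : ℕ | a ∈ AA h v ∧ 1 ≤ a ∧ a ≤ x}.ncard ≤ C * bb h ^ (k + 1) :=
      (Set.ncard_le_ncard h3 ((Set.finite_Iio _).subset Set.inter_subset_right)).trans (hC _)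
    have hb0 : (0 : ℝ) ≤ bb h := Nat.cast_nonneg _
    have h5 : ((bb h : ℝ) ^ k) ≤ (x : ℝ) ^ (1 / (h : ℝ)) := by
      have h6 : ((bb h : ℝ) ^ k) = (((bb h : ℝ) ^ k) ^ h) ^ (1 / (h : ℝ)) := by
        rw [one_div, Real.pow_rpow_inv_natCast (by positivity) (by omega)]
      rw [h6]
      apply Real.rpow_le_rpow (by positivity) _ (by positivity)
      have h7 : (bb h ^ k) ^ h ≤ x := by rw [← BB_pow_eq]; exact h1
      exact_mod_cast h7
    calc ({a : ℕ | a ∈ AA h v ∧ 1 ≤ a ∧ a ≤ x}.ncard : ℝ) ≤ C * (bb h : ℝ) ^ (k + 1) := by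
          exact_mod_cast h4
      _ = C * bb h * (bb h : ℝ) ^ k := by ring
      _ ≤ C * bb h * (x : ℝ) ^ (1 / (h : ℝ)) := mul_le_mul_of_nonneg_left h5 (by positivity)

/-- the polylogarithmic bound -/
theorem polylog {h : ℕ} (hh : 2 ≤ h) (v : ℕ → ℕ → ℕ → ℕ)
    (hP : ∃ C : ℕ, ∀ J n : ℕ, n < MM h J → rep (AA h v) h n ≤ C * (J + 1) ^ C) :
    ∃ (C : ℝ) (m : ℕ), ∀ n : ℕ, 2 ≤ n → (rep (AA h v) h n : ℝ) ≤ C * Real.log n ^ m := by
  obtain ⟨C, hC⟩ := hP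
  refine ⟨C * 4 ^ C, C, fun n hn => ?_⟩
  have hB3 : 3 ≤ BB h := by
    have h1 := lt_bb h
    have h2 := bb_le_BB (h := h) (by omega)
    omega
  have hex : ∃ J, n < MM h J := by
    refine ⟨n, ?_⟩
    unfold MM
    have h1 : n ≤ mm h n := (X118.mm_strictMono h).id_le n
    exact lt_of_le_of_lt h1 (Nat.lt_pow_self (by omega))
  classical
  set J := Nat.find hex with hJ
  have hJ1 : n < MM h J := Nat.find_spec hex
  have hJ0 : J ≠ 0 := by
    intro h0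
    rw [h0] at hJ1
    simp only [MM, mm_zero, pow_zero] at hJ1
    omega
  have hJ2 : MM h (J - 1) ≤ n := by
    have := Nat.find_min hex (m := J - 1) (by omega)
    omega
  have h1 : BB h ^ (J - 1) ≤ n := by
    refine le_trans (Nat.pow_le_pow_right (by omega) ?_) hJ2
    exact (X118.mm_strictMono h).id_le _
  have hn0 : (0 : ℝ) < n := by positivity
  have h2 : ((J - 1 : ℕ) : ℝ) ≤ Real.log n := by
    have h3 : ((BB h : ℝ)) ^ (J - 1) ≤ n := by exact_mod_cast h1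
    have h4 := Real.log_le_log (by positivity) h3
    rw [Real.log_pow] at h4
    have h5 : (1 : ℝ) ≤ Real.log (BB h) := by
      rw [Real.le_log_iff_exp_le (by positivity)]
      have h6 : (3 : ℝ) ≤ BB h := by exact_mod_cast hB3
      have := Real.exp_one_lt_d9
      linarith
    have h7 : (0 : ℝ) ≤ ((J - 1 : ℕ) : ℝ) := Nat.cast_nonneg _
    nlinarith
  have h8 : (0.69 : ℝ) ≤ Real.log n := by
    have h9 : Real.log 2 ≤ Real.log n := Real.log_le_log (by norm_num) (by exact_mod_cast hn)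
    have := Real.log_two_gt_d9
    linarith
  have h10 : ((J : ℝ) + 1) ≤ 4 * Real.log n := by
    have : ((J - 1 : ℕ) : ℝ) = J - 1 := by
      rw [Nat.cast_sub (by omega)]; simp
    rw [this] at h2
    linarith
  calc (rep (AA h v) h n : ℝ) ≤ C * ((J : ℝ) + 1) ^ C := by exact_mod_cast hC J n hJ1
    _ ≤ C * (4 * Real.log n) ^ C := by gcongr
    _ = _ := by rw [mul_pow]; ring

theorem rep_finite (A : Set ℕ) (h n : ℕ) :
    {s : Multiset ℕ | Multiset.card s = h ∧ (∀ a ∈ s, a ∈ A) ∧ s.sum = n}.Finite := by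
  have h1 : (Set.range fun f : Fin h → Fin (n + 1) =>
      Multiset.map (fun j => (f j : ℕ)) (univ : Finset (Fin h)).val).Finite := Set.finite_range _
  refine h1.subset ?_
  rintro s ⟨hs, _, hsn⟩
  obtain ⟨a, rfl⟩ := D424.exists_fn h s hs
  have hle : ∀ j, a j < n + 1 := by
    intro j
    have : a j ≤ (Multiset.map a univ.val).sum :=
      Multiset.single_le_sum (fun x _ => Nat.zero_le x) _ (Multiset.mem_map_of_mem a (mem_univ j))
    omega
  exact ⟨fun j => ⟨a j, hle j⟩, rfl⟩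

theorem rep_zero (A : Set ℕ) (h : ℕ) : rep A h 0 ≤ 1 := by
  unfold rep
  have h1 : {s : Multiset ℕ | Multiset.card s = h ∧ (∀ a ∈ s, a ∈ A) ∧ s.sum = 0} ⊆
      {Multiset.replicate h 0} := by
    rintro s ⟨hs, _, hs0⟩
    rw [Set.mem_singleton_iff, Multiset.eq_replicate]
    refine ⟨hs, fun a ha => ?_⟩
    have : a ≤ s.sum := Multiset.single_le_sum (fun x _ => Nat.zero_le x) a ha
    omega
  exact (Set.ncard_le_ncard h1 (Set.finite_singleton _)).trans (by simp)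

/-- sums over the scales -/
theorem sum_scales (r : ℕ) {B : ℝ} (hB : 1 < B) : ∃ S : ℝ, 0 ≤ S ∧ ∀ K : ℕ,
    ∑ k ∈ range (K + 1), B ^ k / ((k : ℝ) + 1) ^ r ≤ S * (B ^ K / ((K : ℝ) + 1) ^ r) := by
  have hB0 : 0 < B := by linarith
  have hsum : Summable fun j : ℕ => ((j : ℝ) + 1) ^ r * (B⁻¹) ^ j := by
    have h1 : Summable fun j : ℕ => ((j : ℝ)) ^ r * (B⁻¹) ^ j :=
      summable_pow_mul_geometric_of_norm_lt_one r (by
        rw [Real.norm_eq_abs, abs_of_pos (by positivity)]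
        exact inv_lt_one_of_one_lt₀ hB)
    have h2 := (summable_nat_add_iff 1).mpr h1
    have h3 : (fun j : ℕ => ((j : ℝ) + 1) ^ r * (B⁻¹) ^ j) =
        fun j : ℕ => B * (((j + 1 : ℕ) : ℝ) ^ r * (B⁻¹) ^ (j + 1)) := by
      funext j
      push_cast
      rw [pow_succ (B⁻¹) j]
      field_simp
    rw [h3]
    exact h2.mul_left B
  refine ⟨∑' j : ℕ, ((j : ℝ) + 1) ^ r * (B⁻¹) ^ j, tsum_nonneg fun j => by positivity,
    fun K => ?_⟩
  rw [← Finset.sum_range_reflect]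
  have hterm : ∀ j ∈ range (K + 1), B ^ (K + 1 - 1 - j) / (((K + 1 - 1 - j : ℕ) : ℝ) + 1) ^ r ≤
      ((j : ℝ) + 1) ^ r * (B⁻¹) ^ j * (B ^ K / ((K : ℝ) + 1) ^ r) := by
    intro j hj
    have hjK : j ≤ K := by have := mem_range.mp hj; omega
    obtain ⟨l, rfl⟩ := Nat.exists_eq_add_of_le hjK
    have e1 : j + l + 1 - 1 - j = l := by omega
    rw [e1]
    have h1 : ((j + l : ℕ) : ℝ) + 1 ≤ ((j : ℝ) + 1) * ((l : ℝ) + 1) := by
      push_cast
      have : (0 : ℝ) ≤ (j : ℝ) * l := by positivity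
      nlinarith
    have h2 : (((j + l : ℕ) : ℝ) + 1) ^ r ≤ ((j : ℝ) + 1) ^ r * ((l : ℝ) + 1) ^ r := by
      rw [← mul_pow]
      exact pow_le_pow_left₀ (by positivity) h1 r
    have h3 : ((j : ℝ) + 1) ^ r * (B⁻¹) ^ j * (B ^ (j + l) / (((j + l : ℕ) : ℝ) + 1) ^ r) =
        ((j : ℝ) + 1) ^ r * B ^ l / (((j + l : ℕ) : ℝ) + 1) ^ r := by
      rw [pow_add, inv_pow]
      field_simp
    rw [h3, div_le_div_iff₀ (by positivity) (by positivity)]
    calc B ^ l * (((j + l : ℕ) : ℝ) + 1) ^ r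
        ≤ B ^ l * (((j : ℝ) + 1) ^ r * ((l : ℝ) + 1) ^ r) :=
          mul_le_mul_of_nonneg_left h2 (by positivity)
      _ = _ := by ring
  refine (Finset.sum_le_sum hterm).trans ?_
  rw [← Finset.sum_mul]
  refine mul_le_mul_of_nonneg_right ?_ (by positivity)
  exact hsum.sum_le_tsum _ fun j _ => by positivity

theorem geom2 {B : ℝ} (hB : 2 ≤ B) (K : ℕ) : ∑ k ∈ range (K + 1), B ^ k ≤ 2 * B ^ K := by
  induction K with
  | zero => simp
  | succ K ih =>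
    rw [Finset.sum_range_succ, pow_succ]
    have : (0 : ℝ) < B ^ K := by positivity
    nlinarith

/-- counting up to `x` by scales -/
theorem count_scales {h : ℕ} (hh : 2 ≤ h) (P : ℕ → Prop) (k₀ x : ℕ) :
    {n : ℕ | n ≤ x ∧ P n}.ncard ≤ {n : ℕ | n < BB h ^ k₀ ∧ P n}.ncard +
      ∑ k ∈ (range (Nat.log (BB h) x + 1)).filter (fun k => k₀ ≤ k),
        {n : ℕ | BB h ^ k ≤ n ∧ n < BB h ^ (k + 1) ∧ P n}.ncard := by
  have hB : 1 < BB h := two_le_BB (by omega)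
  have hsub : {n : ℕ | n ≤ x ∧ P n} ⊆ {n : ℕ | n < BB h ^ k₀ ∧ P n} ∪
      ⋃ k ∈ (range (Nat.log (BB h) x + 1)).filter (fun k => k₀ ≤ k),
        {n : ℕ | BB h ^ k ≤ n ∧ n < BB h ^ (k + 1) ∧ P n} := by
    rintro n ⟨hn, hP⟩
    rcases Nat.lt_or_ge n (BB h ^ k₀) with h1 | h1
    · exact Or.inl ⟨h1, hP⟩
    · right
      have hn0 : n ≠ 0 := by
        have : 0 < BB h ^ k₀ := Nat.pow_pos (BB_pos h)
        omega
      obtain ⟨h2, h3⟩ := scale hh hn0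
      refine Set.mem_biUnion (x := Nat.log (BB h) n) ?_ ⟨h2, h3, hP⟩
      rw [mem_coe, mem_filter, mem_range]
      refine ⟨Nat.lt_succ_of_le (Nat.log_mono_right hn), ?_⟩
      exact Nat.le_log_of_pow_le hB h1
  have hfin1 : {n : ℕ | n < BB h ^ k₀ ∧ P n}.Finite := (Set.finite_Iio _).subset fun n hn => hn.1
  have hfin2 : ∀ k, {n : ℕ | BB h ^ k ≤ n ∧ n < BB h ^ (k + 1) ∧ P n}.Finite := fun k =>
    (Set.finite_Iio _).subset fun n hn => hn.2.1
  have hfin3 : (⋃ k ∈ (range (Nat.log (BB h) x + 1)).filter (fun k => k₀ ≤ k),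
        {n : ℕ | BB h ^ k ≤ n ∧ n < BB h ^ (k + 1) ∧ P n}).Finite :=
    Set.Finite.biUnion (Finset.finite_toSet _) fun k _ => hfin2 k
  refine (Set.ncard_le_ncard hsub (hfin1.union hfin3)).trans ?_
  refine (Set.ncard_union_le _ _).trans (Nat.add_le_add_left ?_ _)
  generalize (range (Nat.log (BB h) x + 1)).filter (fun k => k₀ ≤ k) = F
  classical
  induction F using Finset.induction_on with
  | empty => simp
  | insert a s ha ih =>
    rw [Finset.sum_insert ha, Finset.set_biUnion_insert]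
    exact (Set.ncard_union_le _ _).trans (Nat.add_le_add_left ih _)

/-- few integers with more than `2 ^ h` representations -/
theorem two {h r : ℕ} (hh : 2 ≤ h) (hr : 1 ≤ r) (hq : QPar.q = 6 * r) (hT : S_Thin h)
    (v : ℕ → ℕ → ℕ → ℕ) : ∃ C : ℝ, ∀ x : ℕ, 2 ≤ x →
      ({n : ℕ | n ≤ x ∧ 2 ^ h < rep (AA h v) h n}.ncard : ℝ) ≤ C * x / Real.log x ^ r := by
  obtain ⟨C, hC⟩ := two_count hh hr hq hT v
  have hB1 : 1 < BB h := two_le_BB (by omega)
  have hB : (1 : ℝ) < BB h := by exact_mod_cast hB1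
  obtain ⟨S, hS0, hS⟩ := sum_scales r hB
  refine ⟨C * S * Real.log (BB h) ^ r, fun x hx => ?_⟩
  obtain ⟨hx1, hx2⟩ := scale (n := x) hh (by omega)
  set K := Nat.log (BB h) x with hK
  have h1 := count_scales hh (fun n => 2 ^ h < rep (AA h v) h n) 0 x
  have h2 : {n : ℕ | n < BB h ^ 0 ∧ 2 ^ h < rep (AA h v) h n} = ∅ := by
    ext n
    simp only [pow_zero, Nat.lt_one_iff, Set.mem_ofPred_eq, Set.mem_empty_iff_false, iff_false,
      not_and]
    rintro rfl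
    have := rep_zero (AA h v) h
    have := Nat.one_le_two_pow (n := h)
    omega
  rw [h2, Set.ncard_empty, zero_add, ← hK] at h1
  have h3 : ∀ k : ℕ, ({n : ℕ | BB h ^ k ≤ n ∧ n < BB h ^ (k + 1) ∧
      2 ^ h < rep (AA h v) h n}.ncard : ℝ) ≤ C * ((BB h : ℝ) ^ k / ((k : ℝ) + 1) ^ r) := by
    intro k
    rw [← mul_div_assoc, le_div_iff₀ (by positivity)]
    exact_mod_cast hC k
  have hlogB : 0 < Real.log (BB h) := Real.log_pos hB
  have hlogx : 0 < Real.log x := Real.log_pos (by exact_mod_cast (by omega : 1 < x))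
  have hlog : Real.log x ≤ ((K : ℝ) + 1) * Real.log (BB h) := by
    have h4 : (x : ℝ) ≤ (BB h : ℝ) ^ (K + 1) := by exact_mod_cast hx2.le
    have h5 := Real.log_le_log (by positivity) h4
    rw [Real.log_pow] at h5
    push_cast at h5
    exact h5
  calc ({n : ℕ | n ≤ x ∧ 2 ^ h < rep (AA h v) h n}.ncard : ℝ)
      ≤ ∑ k ∈ (range (K + 1)).filter (fun k => 0 ≤ k), ({n : ℕ | BB h ^ k ≤ n ∧
          n < BB h ^ (k + 1) ∧ 2 ^ h < rep (AA h v) h n}.ncard : ℝ) := by exact_mod_cast h1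
    _ = ∑ k ∈ range (K + 1), ({n : ℕ | BB h ^ k ≤ n ∧
          n < BB h ^ (k + 1) ∧ 2 ^ h < rep (AA h v) h n}.ncard : ℝ) := by
        rw [Finset.filter_true_of_mem fun _ _ => Nat.zero_le _]
    _ ≤ ∑ k ∈ range (K + 1), C * ((BB h : ℝ) ^ k / ((k : ℝ) + 1) ^ r) :=
        Finset.sum_le_sum fun k _ => h3 k
    _ = C * ∑ k ∈ range (K + 1), (BB h : ℝ) ^ k / ((k : ℝ) + 1) ^ r := by rw [Finset.mul_sum]
    _ ≤ C * (S * ((BB h : ℝ) ^ K / ((K : ℝ) + 1) ^ r)) :=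
        mul_le_mul_of_nonneg_left (hS K) (Nat.cast_nonneg _)
    _ ≤ C * (S * ((x : ℝ) / ((K : ℝ) + 1) ^ r)) := by
        have h6 : (BB h : ℝ) ^ K ≤ x := by exact_mod_cast hx1
        gcongr
    _ ≤ C * S * Real.log (BB h) ^ r * x / Real.log x ^ r := by
        have h7 : (x : ℝ) / ((K : ℝ) + 1) ^ r ≤ Real.log (BB h) ^ r * x / Real.log x ^ r := by
          rw [div_le_div_iff₀ (by positivity) (by positivity)]
          calc (x : ℝ) * Real.log x ^ r ≤ x * (((K : ℝ) + 1) * Real.log (BB h)) ^ r := by gcongr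
            _ = _ := by rw [mul_pow]; ring
        calc C * (S * ((x : ℝ) / ((K : ℝ) + 1) ^ r))
            ≤ C * (S * (Real.log (BB h) ^ r * x / Real.log x ^ r)) := by gcongr
          _ = _ := by ring

/-- density zero -/
theorem density {h : ℕ} (hh : 2 ≤ h) (hT : S_Thin h) (hD : S_UnqDet h) (v : ℕ → ℕ → ℕ → ℕ)
    (hcov : ∃ n₀ : ℕ, ∀ n ≥ n₀, 1 ≤ rep (AA h v) h n) :
    Tendsto (fun x : ℕ => ({n : ℕ | n ≤ x ∧ rep (AA h v) h n ≠ 1}.ncard : ℝ) / x) atTop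
      (nhds 0) := by
  obtain ⟨n₀, hn₀⟩ := hcov
  have hU := unq hh hT hD v
  have hB1 : 1 < BB h := two_le_BB (by omega)
  have hB2 : (2 : ℝ) ≤ BB h := by exact_mod_cast hB1
  rw [Metric.tendsto_atTop]
  intro ε hε
  obtain ⟨k₁, hk₁⟩ := eventually_atTop.1 (hU (ε / 8) (by positivity))
  -- `k₀` with `B ^ k₀ ≥ n₀`
  set k₀ := max k₁ n₀ with hk₀
  have hBk : n₀ ≤ BB h ^ k₀ := by
    calc n₀ ≤ k₀ := le_max_right _ _
      _ ≤ BB h ^ k₀ := (Nat.lt_pow_self hB1).le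
  obtain ⟨N, hN⟩ := exists_nat_gt ((BB h : ℝ) ^ k₀ / (ε / 2))
  refine ⟨max N 1, fun x hx => ?_⟩
  have hx1 : 1 ≤ x := le_trans (le_max_right _ _) hx
  have hxN : N ≤ x := le_trans (le_max_left _ _) hx
  have hx0 : (0 : ℝ) < x := by exact_mod_cast hx1
  obtain ⟨hs1, hs2⟩ := scale (n := x) hh (by omega)
  set K := Nat.log (BB h) x with hK
  have h1 := count_scales hh (fun n => rep (AA h v) h n ≠ 1) k₀ x
  rw [← hK] at h1
  have h2 : {n : ℕ | n < BB h ^ k₀ ∧ rep (AA h v) h n ≠ 1}.ncard ≤ BB h ^ k₀ := by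
    have : {n : ℕ | n < BB h ^ k₀ ∧ rep (AA h v) h n ≠ 1} ⊆
        ((range (BB h ^ k₀) : Finset ℕ) : Set ℕ) := fun n hn => by
      rw [coe_range]; exact hn.1
    calc _ ≤ ((range (BB h ^ k₀) : Finset ℕ) : Set ℕ).ncard :=
          Set.ncard_le_ncard this (Finset.finite_toSet _)
      _ = BB h ^ k₀ := by rw [Set.ncard_coe_finset, card_range]
  have h3 : ∀ k ∈ (range (K + 1)).filter (fun k => k₀ ≤ k),
      ({n : ℕ | BB h ^ k ≤ n ∧ n < BB h ^ (k + 1) ∧ rep (AA h v) h n ≠ 1}.ncard : ℝ) ≤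
        ε / 8 * (BB h : ℝ) ^ k := by
    intro k hk
    have hk0 : k₀ ≤ k := (mem_filter.mp hk).2
    refine le_trans ?_ (hk₁ k (le_trans (le_max_left _ _) hk0))
    have hsub : {n : ℕ | BB h ^ k ≤ n ∧ n < BB h ^ (k + 1) ∧ rep (AA h v) h n ≠ 1} ⊆
        {n : ℕ | BB h ^ k ≤ n ∧ n < BB h ^ (k + 1) ∧ 2 ≤ rep (AA h v) h n} := by
      rintro n ⟨a1, a2, a3⟩
      have : BB h ^ k₀ ≤ BB h ^ k := Nat.pow_le_pow_right (by omega) hk0
      have := hn₀ n (by omega)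
      exact ⟨a1, a2, by omega⟩
    exact_mod_cast Set.ncard_le_ncard hsub ((Set.finite_Iio (BB h ^ (k + 1))).subset
      fun n hn => hn.2.1)
  have h4 : ∑ k ∈ (range (K + 1)).filter (fun k => k₀ ≤ k),
      ({n : ℕ | BB h ^ k ≤ n ∧ n < BB h ^ (k + 1) ∧ rep (AA h v) h n ≠ 1}.ncard : ℝ) ≤
        ε / 4 * (BB h : ℝ) ^ K := by
    calc _ ≤ ∑ k ∈ (range (K + 1)).filter (fun k => k₀ ≤ k), ε / 8 * (BB h : ℝ) ^ k :=
          Finset.sum_le_sum h3
      _ ≤ ∑ k ∈ range (K + 1), ε / 8 * (BB h : ℝ) ^ k :=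
          Finset.sum_le_sum_of_subset_of_nonneg (filter_subset _ _) fun _ _ _ => by positivity
      _ = ε / 8 * ∑ k ∈ range (K + 1), (BB h : ℝ) ^ k := by rw [Finset.mul_sum]
      _ ≤ ε / 8 * (2 * (BB h : ℝ) ^ K) := by
          refine mul_le_mul_of_nonneg_left ?_ (by positivity)
          exact geom2 hB2 K
      _ = _ := by ring
  have h5 : ({n : ℕ | n ≤ x ∧ rep (AA h v) h n ≠ 1}.ncard : ℝ) ≤
      (BB h : ℝ) ^ k₀ + ε / 4 * x := by
    have h6 : (BB h : ℝ) ^ K ≤ x := by exact_mod_cast hs1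
    have h7 : ({n : ℕ | n ≤ x ∧ rep (AA h v) h n ≠ 1}.ncard : ℝ) ≤
        ({n : ℕ | n < BB h ^ k₀ ∧ rep (AA h v) h n ≠ 1}.ncard : ℝ) +
        ∑ k ∈ (range (K + 1)).filter (fun k => k₀ ≤ k),
          ({n : ℕ | BB h ^ k ≤ n ∧ n < BB h ^ (k + 1) ∧ rep (AA h v) h n ≠ 1}.ncard : ℝ) := by
      exact_mod_cast h1
    have h8 : ({n : ℕ | n < BB h ^ k₀ ∧ rep (AA h v) h n ≠ 1}.ncard : ℝ) ≤ (BB h : ℝ) ^ k₀ := by
      exact_mod_cast h2
    have h9 : ε / 4 * (BB h : ℝ) ^ K ≤ ε / 4 * x := mul_le_mul_of_nonneg_left h6 (by positivity)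
    linarith
  rw [Real.dist_eq, sub_zero, abs_of_nonneg (by positivity), div_lt_iff₀ hx0]
  have h10 : (BB h : ℝ) ^ k₀ < ε / 2 * x := by
    rw [div_lt_iff₀ (by positivity)] at hN
    have : (N : ℝ) ≤ x := by exact_mod_cast hxN
    nlinarith
  nlinarith

end Fi

end Pool.Agent.N885.NQ
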