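import Pool.Agent.N885.NQ.Step

/-! # Near-counterexamples of every order: the choice of the offsets -/

set_option linter.unusedSectionVars false

namespace Pool.Agent.N885.NQ

open Finset

variable [QPar]

namespace Hs

/-- `log (K M i)` is at most this -/
noncomputable def K1 (h : ℕ) : ℝ := h + (h : ℝ) ^ h + (QPar.q + 6 : ℕ) * BB h
noncomputable def Lam (h i : ℕ) : ℝ := K1 h * ((i : ℝ) + 1) ^ 2
noncomputable def Q (h : ℕ) : ℝ := h * K1 h * (bb h : ℝ) ^ (6 * h)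
noncomputable def X (h i : ℕ) : ℝ := Q h * ((i : ℝ) + 1) ^ (QPar.q * h + 3)
noncomputable def lam (h i k : ℕ) : ℝ := 1 / X h i ^ k
noncomputable def KK (h : ℕ) : ℝ := h * Real.exp ((h : ℝ) ^ h)

noncomputable def Pot (h : ℕ) (v : ℕ → ℕ → ℕ → ℕ) (i : ℕ) : ℝ :=
  ∑ k ∈ Icc 1 h, ∑ n ∈ range (MM h i), Real.exp (lam h i k * Zc h v i k n)

theorem one_le_K1 {h : ℕ} (hh : 2 ≤ h) : 1 ≤ K1 h := by
  unfold K1
  have : (2 : ℝ) ≤ h := by exact_mod_cast hh
  have : (0 : ℝ) ≤ (h : ℝ) ^ h := by positivity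
  have : (0 : ℝ) ≤ (QPar.q + 6 : ℕ) * BB h := by positivity
  linarith

theorem one_le_Lam {h : ℕ} (hh : 2 ≤ h) (i : ℕ) : 1 ≤ Lam h i := by
  unfold Lam
  have h1 := one_le_K1 hh
  have h2 : (1 : ℝ) ≤ ((i : ℝ) + 1) ^ 2 := one_le_pow₀ (by have : (0:ℝ) ≤ i := Nat.cast_nonneg i; linarith)
  nlinarith

theorem one_le_Q {h : ℕ} (hh : 2 ≤ h) : 1 ≤ Q h := by
  unfold Q
  have h1 := one_le_K1 hh
  have h2 : (1 : ℝ) ≤ h := by exact_mod_cast (by omega : 1 ≤ h)
  have h3 : (1 : ℝ) ≤ (bb h : ℝ) ^ (6 * h) := one_le_pow₀ (by exact_mod_cast bb_pos h)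
  have h4 : (1 : ℝ) ≤ h * K1 h := one_le_mul_of_one_le_of_one_le h2 h1
  exact one_le_mul_of_one_le_of_one_le h4 h3

theorem one_le_X {h : ℕ} (hh : 2 ≤ h) (i : ℕ) : 1 ≤ X h i := by
  unfold X
  have h2 : (1 : ℝ) ≤ ((i : ℝ) + 1) ^ (QPar.q * h + 3) :=
    one_le_pow₀ (by have : (0:ℝ) ≤ i := Nat.cast_nonneg i; linarith)
  exact one_le_mul_of_one_le_of_one_le (one_le_Q hh) h2

theorem X_succ {h : ℕ} (hh : 2 ≤ h) (i : ℕ) :
    (1 + 1 / ((i : ℝ) + 1)) * X h i ≤ X h (i + 1) := by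
  unfold X
  have h0 : (0 : ℝ) < (i : ℝ) + 1 := by positivity
  have h1 : (1 : ℝ) ≤ 1 + 1 / ((i : ℝ) + 1) := by
    have : (0 : ℝ) ≤ 1 / ((i : ℝ) + 1) := by positivity
    linarith
  have h2 : (((i + 1 : ℕ) : ℝ) + 1) = (1 + 1 / ((i : ℝ) + 1)) * ((i : ℝ) + 1) := by
    push_cast; field_simp
  rw [h2, mul_pow]
  have h3 : (1 + 1 / ((i : ℝ) + 1)) ≤ (1 + 1 / ((i : ℝ) + 1)) ^ (QPar.q * h + 3) :=
    le_self_pow₀ h1 (by omega)
  have h4 := one_le_Q hh
  calc (1 + 1 / ((i : ℝ) + 1)) * (Q h * ((i : ℝ) + 1) ^ (QPar.q * h + 3))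
      = Q h * ((1 + 1 / ((i : ℝ) + 1)) * ((i : ℝ) + 1) ^ (QPar.q * h + 3)) := by ring
    _ ≤ Q h * ((1 + 1 / ((i : ℝ) + 1)) ^ (QPar.q * h + 3) * ((i : ℝ) + 1) ^ (QPar.q * h + 3)) := by
        apply mul_le_mul_of_nonneg_left _ (by linarith)
        exact mul_le_mul_of_nonneg_right h3 (by positivity)

theorem lam_pos {h : ℕ} (hh : 2 ≤ h) (i k : ℕ) : 0 < lam h i k := by
  unfold lam
  have := one_le_X hh i
  positivity

theorem lam_succ {h : ℕ} (hh : 2 ≤ h) (i k : ℕ) (hk : 1 ≤ k) :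
    lam h (i + 1) k * (1 + 1 / ((i : ℝ) + 1)) ≤ lam h i k := by
  unfold lam
  have hX := one_le_X hh i
  have hX' := one_le_X hh (i + 1)
  have h1 : (1 : ℝ) ≤ 1 + 1 / ((i : ℝ) + 1) := by
    have : (0 : ℝ) ≤ 1 / ((i : ℝ) + 1) := by positivity
    linarith
  have h2 : (1 + 1 / ((i : ℝ) + 1)) * X h i ^ k ≤ X h (i + 1) ^ k := by
    calc (1 + 1 / ((i : ℝ) + 1)) * X h i ^ k ≤ (1 + 1 / ((i : ℝ) + 1)) ^ k * X h i ^ k :=
          mul_le_mul_of_nonneg_right (le_self_pow₀ h1 (by omega)) (by positivity)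
      _ = ((1 + 1 / ((i : ℝ) + 1)) * X h i) ^ k := by rw [mul_pow]
      _ ≤ X h (i + 1) ^ k := pow_le_pow_left₀ (by positivity) (X_succ hh i) k
  rw [div_mul_eq_mul_div, one_mul, div_le_div_iff₀ (by positivity) (by positivity), one_mul]
  exact h2

theorem mm_le (h i : ℕ) : mm h i ≤ (QPar.q + 6) * (i + 1) ^ 2 := by
  have h1 : mm h i ≤ ∑ j ∈ range i, (QPar.q + 6) * (i + 1) := by
    unfold mm
    refine sum_le_sum fun j hj => ?_
    have h2 : lg h j ≤ j + 1 := Nat.log_le_self _ _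
    have h3 := mem_range.mp hj
    have h4 : QPar.q * lg h j ≤ QPar.q * (i + 1) := Nat.mul_le_mul_left _ (by omega)
    unfold ss
    nlinarith
  rw [sum_const, card_range, smul_eq_mul] at h1
  nlinarith [Nat.zero_le (QPar.q + 6)]

theorem KM_le {h : ℕ} (hh : 2 ≤ h) (i : ℕ) : KK h * MM h i ≤ Real.exp (Lam h i) := by
  have h1 : (h : ℝ) ≤ Real.exp h := by have := Real.add_one_le_exp (h : ℝ); linarith
  have h2 : (BB h : ℝ) ≤ Real.exp (BB h) := by have := Real.add_one_le_exp (BB h : ℝ); linarith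
  have h3 : (MM h i : ℝ) ≤ Real.exp (BB h * mm h i) := by
    unfold MM
    push_cast
    calc (BB h : ℝ) ^ mm h i ≤ (Real.exp (BB h)) ^ mm h i := pow_le_pow_left₀ (by positivity) h2 _
      _ = Real.exp (BB h * mm h i) := by rw [← Real.exp_nat_mul]; ring_nf
  unfold KK
  calc (h : ℝ) * Real.exp ((h : ℝ) ^ h) * MM h i
      ≤ Real.exp h * Real.exp ((h : ℝ) ^ h) * Real.exp (BB h * mm h i) := by gcongr
    _ = Real.exp (h + (h : ℝ) ^ h + BB h * mm h i) := by rw [← Real.exp_add, ← Real.exp_add]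
    _ ≤ Real.exp (Lam h i) := by
        apply Real.exp_le_exp.mpr
        unfold Lam K1
        have h4 : (mm h i : ℝ) ≤ (QPar.q + 6 : ℕ) * ((i : ℝ) + 1) ^ 2 := by exact_mod_cast mm_le h i
        have h5 : (BB h : ℝ) * mm h i ≤ BB h * ((QPar.q + 6 : ℕ) * ((i : ℝ) + 1) ^ 2) :=
          mul_le_mul_of_nonneg_left h4 (by positivity)
        have h6 : (1 : ℝ) ≤ ((i : ℝ) + 1) ^ 2 :=
          one_le_pow₀ (by have : (0:ℝ) ≤ i := Nat.cast_nonneg i; linarith)
        have h7 : (0 : ℝ) ≤ h + (h : ℝ) ^ h := by positivity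
        nlinarith

theorem Zc_mod (h : ℕ) (v : ℕ → ℕ → ℕ → ℕ) (i k n : ℕ) :
    Zc h v i k n = Zc h v i k (n % MM h i) := by
  unfold Zc; simp

/-- the bound for the number of tuples -/
theorem Z_le {h : ℕ} (hh : 2 ≤ h) {v : ℕ → ℕ → ℕ → ℕ} {i : ℕ} (hP : Pot h v i ≤ KK h * MM h i)
    {k : ℕ} (hk : k ≤ h) (n : ℕ) : (Zc h v i k n : ℝ) ≤ Lam h i * X h i ^ k := by
  rcases Nat.eq_zero_or_pos k with rfl | hk0
  · have h1 : Zc h v i 0 n ≤ 1 := by
      unfold Zc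
      refine (card_filter_le _ _).trans ?_
      simp
    have h2 : (Zc h v i 0 n : ℝ) ≤ 1 := by exact_mod_cast h1
    rw [pow_zero, mul_one]
    exact h2.trans (one_le_Lam hh i)
  · rw [Zc_mod]
    have hn : n % MM h i ∈ range (MM h i) := mem_range.mpr (Nat.mod_lt _ (MM_pos h i))
    have hk1 : k ∈ Icc 1 h := mem_Icc.mpr ⟨hk0, hk⟩
    have h1 : Real.exp (lam h i k * Zc h v i k (n % MM h i)) ≤ Pot h v i := by
      unfold Pot
      refine le_trans ?_ (single_le_sum (f := fun k => ∑ n ∈ range (MM h i),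
        Real.exp (lam h i k * Zc h v i k n)) (fun k _ => sum_nonneg fun _ _ => (Real.exp_pos _).le) hk1)
      exact single_le_sum (f := fun n => Real.exp (lam h i k * Zc h v i k n))
        (fun _ _ => (Real.exp_pos _).le) hn
    have h2 := Real.exp_le_exp.mp ((h1.trans hP).trans (KM_le hh i))
    have hX := one_le_X hh i
    unfold lam at h2
    rw [div_mul_eq_mul_div, one_mul, div_le_iff₀ (by positivity)] at h2
    exact h2

theorem sum_range_mul' (M V : ℕ) (f : ℕ → ℝ) :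
    ∑ n ∈ range (M * V), f n = ∑ n ∈ range M, ∑ y ∈ range V, f (n + M * y) := by
  rw [sum_comm]
  induction V with
  | zero => simp
  | succ V ih =>
    rw [Nat.mul_succ, sum_range_add, ih, sum_range_succ]
    congr 1
    refine sum_congr rfl fun n _ => ?_
    rw [add_comm]

/-- the average over the new offsets -/
theorem avg {h : ℕ} (hh : 2 ≤ h) {v : ℕ → ℕ → ℕ → ℕ} {i : ℕ} (hP : Pot h v i ≤ KK h * MM h i)
    {k : ℕ} (hk1 : 1 ≤ k) (hk : k ≤ h) {n : ℕ} (hn : n < MM h i) (y : ℕ) :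
    ∑ x : At h i → ZMod (VV h i),
      Real.exp (lam h (i + 1) k * Zc h (nv h v i x) (i + 1) k (n + MM h i * y)) ≤
    (VV h i : ℝ) ^ Fintype.card (At h i) * Real.exp (lam h i k * Zc h v i k n) := by
  obtain ⟨k', rfl⟩ : ∃ k', k = k' + 1 := ⟨k - 1, by omega⟩
  have hl := lam_pos hh (i + 1) (k' + 1)
  have hi : (0 : ℝ) < (i : ℝ) + 1 := by positivity
  set ε : ℝ := 1 / ((i : ℝ) + 1) with hε
  have hε1 : ε ≤ 1 := by
    rw [hε, div_le_one hi]; have : (0:ℝ) ≤ i := Nat.cast_nonneg i; linarith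
  set Zm : ℕ := ⌊Lam h i * X h i ^ k'⌋₊ with hZm
  have hZ : ∀ n', Zc h v i k' n' ≤ Zm := fun n' => Nat.le_floor (Z_le hh hP (by omega) n')
  have hX := one_le_X hh i
  have hX' := one_le_X hh (i + 1)
  have hLam := one_le_Lam hh i
  have hZm2 : (Zm : ℝ) ≤ Lam h i * X h i ^ k' := Nat.floor_le (by positivity)
  set D : ℕ := bb h ^ ss h i with hD
  set B : ℝ := ((k' + 1 : ℕ) : ℝ) * Zm * (D : ℝ) ^ k' with hB
  have hbd : ∀ (a : At h i) x, ∑ τ ∈ (Sn h v i (k' + 1) n).filter (fun τ => ∃ j, τ j = a),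
      (Rc (tgt h v i (k' + 1) n y) τ x : ℝ) ≤ B := by
    intro a x
    calc ∑ τ ∈ (Sn h v i (k' + 1) n).filter (fun τ => ∃ j, τ j = a),
        (Rc (tgt h v i (k' + 1) n y) τ x : ℝ)
        ≤ ∑ τ ∈ (Sn h v i (k' + 1) n).filter (fun τ => ∃ j, τ j = a), (D : ℝ) ^ k' := by
          refine sum_le_sum fun τ _ => ?_
          exact_mod_cast Rc_le (by omega) v i k' n y τ x
      _ = (((Sn h v i (k' + 1) n).filter (fun τ => ∃ j, τ j = a)).card : ℝ) * (D : ℝ) ^ k' := by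
          rw [sum_const, nsmul_eq_mul]
      _ ≤ B := by
          rw [hB]
          refine mul_le_mul_of_nonneg_right ?_ (by positivity)
          exact_mod_cast card_atom_le v i k' n a hZ
  have hDh : (D : ℝ) ^ k' ≤ (bb h : ℝ) ^ (6 * h) * ((i : ℝ) + 1) ^ (QPar.q * h) := by
    have h1 : (D : ℝ) ≤ (bb h : ℝ) ^ 6 * ((i : ℝ) + 1) ^ QPar.q := by exact_mod_cast bb_pow_ss_le h i
    have h2 : (1 : ℝ) ≤ D := by exact_mod_cast Nat.one_le_pow _ _ (bb_pos h)
    calc (D : ℝ) ^ k' ≤ (D : ℝ) ^ h := pow_le_pow_right₀ h2 (by omega)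
      _ ≤ ((bb h : ℝ) ^ 6 * ((i : ℝ) + 1) ^ QPar.q) ^ h := pow_le_pow_left₀ (by positivity) h1 h
      _ = _ := by rw [mul_pow, ← pow_mul, ← pow_mul]
  have hBε : lam h (i + 1) (k' + 1) * B ≤ ε := by
    have h1 : B ≤ (h : ℝ) * (Lam h i * X h i ^ k') *
        ((bb h : ℝ) ^ (6 * h) * ((i : ℝ) + 1) ^ (QPar.q * h)) := by
      rw [hB]
      have h2 : ((k' + 1 : ℕ) : ℝ) ≤ h := by exact_mod_cast hk
      have h3 : (0 : ℝ) ≤ Lam h i * X h i ^ k' := by positivity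
      gcongr
    have h4 : (h : ℝ) * (Lam h i * X h i ^ k') *
        ((bb h : ℝ) ^ (6 * h) * ((i : ℝ) + 1) ^ (QPar.q * h)) * ((i : ℝ) + 1) = X h i * X h i ^ k' := by
      unfold X Lam Q
      ring
    have h5 : X h i * X h i ^ k' ≤ X h (i + 1) ^ (k' + 1) := by
      rw [← pow_succ']
      apply pow_le_pow_left₀ (by positivity)
      have h6 := X_succ hh i
      have h7 : (0 : ℝ) ≤ 1 / ((i : ℝ) + 1) := by positivity
      nlinarith
    unfold lam
    rw [hε, div_mul_eq_mul_div, one_mul, div_le_div_iff₀ (by positivity) hi, one_mul]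
    calc B * ((i : ℝ) + 1) ≤ (h : ℝ) * (Lam h i * X h i ^ k') *
        ((bb h : ℝ) ^ (6 * h) * ((i : ℝ) + 1) ^ (QPar.q * h)) * ((i : ℝ) + 1) :=
          mul_le_mul_of_nonneg_right h1 hi.le
      _ ≤ _ := by rw [h4]; exact h5
  have hcop : ∀ m, 1 ≤ m → m ≤ k' + 1 → Nat.Coprime m (VV h i) := by
    intro m h1 h2
    unfold VV BB
    exact Nat.Coprime.pow_right _ (Nat.Coprime.pow_right _ (coprime_bb h1 (h2.trans hk)))
  have main := expmom (α := At h i) (Nat.succ_pos k') hcop (Sn h v i (k' + 1) n)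
    (tgt h v i (k' + 1) n y) hl.le hε1 hBε hbd
  have hratio : (D : ℝ) ^ (k' + 1) / VV h i ≤ 1 := by
    have hV : (0 : ℝ) < VV h i := by exact_mod_cast VV_pos h i
    rw [div_le_one hV]
    have h1 : VV h i = D ^ h := by unfold VV; rw [BB_pow_eq]
    rw [h1]
    push_cast
    exact pow_le_pow_right₀ (by exact_mod_cast Nat.one_le_pow _ _ (bb_pos h)) hk
  calc ∑ x : At h i → ZMod (VV h i),
      Real.exp (lam h (i + 1) (k' + 1) * Zc h (nv h v i x) (i + 1) (k' + 1) (n + MM h i * y))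
      ≤ ∑ x : At h i → ZMod (VV h i), Real.exp (lam h (i + 1) (k' + 1) *
          ∑ τ ∈ Sn h v i (k' + 1) n, (Rc (tgt h v i (k' + 1) n y) τ x : ℝ)) := by
        refine sum_le_sum fun x _ => Real.exp_le_exp.mpr (mul_le_mul_of_nonneg_left ?_ hl.le)
        exact_mod_cast step_Z v i (k' + 1) hn x
    _ ≤ _ := main
    _ ≤ (VV h i : ℝ) ^ Fintype.card (At h i) *
          Real.exp (lam h i (k' + 1) * Zc h v i (k' + 1) n) := by
        refine mul_le_mul_of_nonneg_left (Real.exp_le_exp.mpr ?_) (by positivity)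
        rw [Sn_card]
        refine mul_le_mul_of_nonneg_right ?_ (Nat.cast_nonneg _)
        calc lam h (i + 1) (k' + 1) * (1 + ε) * ((D : ℝ) ^ (k' + 1) / VV h i)
            ≤ lam h (i + 1) (k' + 1) * (1 + ε) * 1 :=
              mul_le_mul_of_nonneg_left hratio (by positivity)
          _ ≤ lam h i (k' + 1) := by rw [mul_one]; exact lam_succ hh i _ hk1

theorem Pot_step {h : ℕ} (hh : 2 ≤ h) {v : ℕ → ℕ → ℕ → ℕ} {i : ℕ}
    (hP : Pot h v i ≤ KK h * MM h i) :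
    ∃ v' : ℕ → ℕ → ℕ → ℕ, Pot h v' (i + 1) ≤ KK h * MM h (i + 1) ∧ ∀ j < i, v' j = v j := by
  have hV : (0 : ℝ) < VV h i := by exact_mod_cast VV_pos h i
  have key : ∑ x : At h i → ZMod (VV h i), Pot h (nv h v i x) (i + 1) ≤
      ∑ _x : At h i → ZMod (VV h i), KK h * MM h (i + 1) := by
    have h1 : ∀ x : At h i → ZMod (VV h i), Pot h (nv h v i x) (i + 1) =
        ∑ k ∈ Icc 1 h, ∑ n ∈ range (MM h i), ∑ y ∈ range (VV h i),
          Real.exp (lam h (i + 1) k * Zc h (nv h v i x) (i + 1) k (n + MM h i * y)) := by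
      intro x
      unfold Pot
      refine sum_congr rfl fun k _ => ?_
      rw [MM_succ, sum_range_mul']
    rw [sum_congr rfl fun x _ => h1 x, sum_comm]
    calc ∑ k ∈ Icc 1 h, ∑ x : At h i → ZMod (VV h i), ∑ n ∈ range (MM h i), ∑ y ∈ range (VV h i),
          Real.exp (lam h (i + 1) k * Zc h (nv h v i x) (i + 1) k (n + MM h i * y))
        ≤ ∑ k ∈ Icc 1 h, ∑ n ∈ range (MM h i), ∑ y ∈ range (VV h i),
          (VV h i : ℝ) ^ Fintype.card (At h i) * Real.exp (lam h i k * Zc h v i k n) := by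
          refine sum_le_sum fun k hk => ?_
          rw [sum_comm]
          refine sum_le_sum fun n hn => ?_
          rw [sum_comm]
          refine sum_le_sum fun y _ => ?_
          exact avg hh hP (mem_Icc.mp hk).1 (mem_Icc.mp hk).2 (mem_range.mp hn) y
      _ = (VV h i : ℝ) ^ Fintype.card (At h i) * (VV h i * Pot h v i) := by
          unfold Pot
          simp only [sum_const, card_range, nsmul_eq_mul, mul_sum]
          refine sum_congr rfl fun k _ => sum_congr rfl fun n _ => by ring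
      _ ≤ (VV h i : ℝ) ^ Fintype.card (At h i) * (VV h i * (KK h * MM h i)) := by
          gcongr
      _ = _ := by
          rw [sum_const, nsmul_eq_mul, MM_succ]
          simp only [card_univ, Fintype.card_fun, ZMod.card]
          push_cast
          ring
  obtain ⟨x, _, hx⟩ := exists_le_of_sum_le (univ_nonempty) key
  exact ⟨nv h v i x, hx, nv_lt h v i x⟩

theorem Pot_zero {h : ℕ} (hh : 2 ≤ h) (v : ℕ → ℕ → ℕ → ℕ) : Pot h v 0 ≤ KK h * MM h 0 := by
  unfold Pot KK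
  have hM : MM h 0 = 1 := by simp [MM, mm_zero]
  rw [hM]
  simp only [range_one, sum_singleton, Nat.cast_one, mul_one]
  have h1 : ∀ k ∈ Icc 1 h, Real.exp (lam h 0 k * Zc h v 0 k 0) ≤ Real.exp ((h : ℝ) ^ h) := by
    intro k hk
    apply Real.exp_le_exp.mpr
    have h2 : Zc h v 0 k 0 ≤ h ^ h := by
      unfold Zc
      refine (card_filter_le _ _).trans ?_
      simp only [card_univ, Fintype.card_fun, Fintype.card_prod, Fintype.card_fin]
      have : NN h 0 = 1 := by simp [NN, mm_zero]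
      rw [this, mul_one]
      exact Nat.pow_le_pow_right (by omega) (mem_Icc.mp hk).2
    have h3 : (Zc h v 0 k 0 : ℝ) ≤ (h : ℝ) ^ h := by exact_mod_cast h2
    have h4 : lam h 0 k ≤ 1 := by
      unfold lam
      rw [div_le_one (by have := one_le_X hh 0; positivity)]
      exact one_le_pow₀ (one_le_X hh 0)
    have h5 : 0 < lam h 0 k := lam_pos hh 0 k
    calc lam h 0 k * Zc h v 0 k 0 ≤ 1 * Zc h v 0 k 0 :=
          mul_le_mul_of_nonneg_right h4 (Nat.cast_nonneg _)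
      _ ≤ _ := by rw [one_mul]; exact h3
  refine (sum_le_sum h1).trans ?_
  simp

end Hs

open Hs in
/-- **The offsets.** -/
theorem hash {h : ℕ} (hh : 2 ≤ h) : S_Hash h := by
  let S : ℕ → Type := fun i => {v : ℕ → ℕ → ℕ → ℕ // Pot h v i ≤ KK h * MM h i}
  have hstep : ∀ i (s : S i), ∃ s' : S (i + 1), ∀ j < i, s'.1 j = s.1 j := by
    rintro i ⟨v, hv⟩
    obtain ⟨v', h1, h2⟩ := Pot_step hh hv
    exact ⟨⟨v', h1⟩, h2⟩
  choose f hf using hstep
  let s : ∀ i, S i := fun i => Nat.rec (motive := S) ⟨fun _ _ _ => 0, Pot_zero hh _⟩ (fun i s => f i s) i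
  have hs : ∀ i, ∀ j < i, (s (i + 1)).1 j = (s i).1 j := fun i j hj => hf i (s i) j hj
  let v : ℕ → ℕ → ℕ → ℕ := fun i => (s (i + 1)).1 i
  have hv : ∀ i, ∀ j < i, v j = (s i).1 j := by
    intro i
    induction i with
    | zero => intro j hj; omega
    | succ i ih =>
      intro j hj
      rcases Nat.lt_or_ge j i with h1 | h1
      · rw [ih j h1, hs i j h1]
      · have : j = i := by omega
        subst this; rfl
  refine ⟨v, ?_⟩
  obtain ⟨C0, hC0⟩ := exists_nat_ge (K1 h * Q h ^ h)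
  refine ⟨C0 + (2 + (QPar.q * h + 3) * h), fun i k n hk => ?_⟩
  rw [Zc_congr (hv i)]
  have h1 := Z_le hh (s i).2 hk n
  have hX := one_le_X hh i
  have hK := one_le_K1 hh
  have hQ := one_le_Q hh
  have hi1 : (1 : ℝ) ≤ (i : ℝ) + 1 := by have : (0:ℝ) ≤ i := Nat.cast_nonneg i; linarith
  have h2 : Lam h i * X h i ^ k ≤ K1 h * Q h ^ h * ((i : ℝ) + 1) ^ (2 + (QPar.q * h + 3) * h) := by
    calc Lam h i * X h i ^ k ≤ Lam h i * X h i ^ h := by
          have : 0 ≤ Lam h i := le_trans zero_le_one (one_le_Lam hh i)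
          exact mul_le_mul_of_nonneg_left (pow_le_pow_right₀ hX hk) this
      _ = _ := by unfold Lam X; rw [mul_pow, ← pow_mul]; ring
  have h3 : (Zc h (s i).1 i k n : ℝ) ≤
      ((C0 + (2 + (QPar.q * h + 3) * h) : ℕ) : ℝ) * ((i : ℝ) + 1) ^ (C0 + (2 + (QPar.q * h + 3) * h)) := by
    refine (h1.trans h2).trans ?_
    have h4 : K1 h * Q h ^ h ≤ ((C0 + (2 + (QPar.q * h + 3) * h) : ℕ) : ℝ) := by
      push_cast
      have : (0 : ℝ) ≤ 2 + (QPar.q * h + 3) * h := by positivity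
      linarith
    have h5 : ((i : ℝ) + 1) ^ (2 + (QPar.q * h + 3) * h) ≤
        ((i : ℝ) + 1) ^ (C0 + (2 + (QPar.q * h + 3) * h)) := pow_le_pow_right₀ hi1 (by omega)
    gcongr
  exact_mod_cast h3

end Pool.Agent.N885.NQ
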