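import Pool.Agent.N885.NQ.Det
import Pool.Agent.N885.NQ.ExcC

/-! # Near-counterexamples of every order: at most `2 ^ h` representations outside small sets -/

set_option linter.unusedSectionVars false

namespace Pool.Agent.N885.NQ

open Finset

variable [QPar]

namespace Tw

/-- the element of colour `c` with given level (`o = true`: level `i + 1`) and digits -/
def Ao (h : ℕ) (v : ℕ → ℕ → ℕ → ℕ) (i : ℕ) (o : Bool) (c e w u : ℕ) : ℕ :=
  if o then el h v (i + 1) c (e + NN h i * w) u else el h v i c e (w + bb h ^ ss h i * u)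

def offo (h : ℕ) (v : ℕ → ℕ → ℕ → ℕ) (i : ℕ) (o : Bool) (c e : ℕ) : ℕ :=
  if o then v i c e else kap h i e

/-- the constant part -/
def Ko (h : ℕ) (v : ℕ → ℕ → ℕ → ℕ) (i : ℕ) (o : Bool) (c e w : ℕ) : ℕ :=
  if o then pt h v (i + 1) c (e + NN h i * w) + MM h (i + 1) * kap h (i + 1) (e + NN h i * w)
  else pt h v i c e + MM h i * (kap h i e + bb h ^ c * sp h w)

theorem Ao_eq (h : ℕ) (v : ℕ → ℕ → ℕ → ℕ) (i : ℕ) (o : Bool) (c e w u : ℕ)
    (hw : w < bb h ^ ss h i) :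
    Ao h v i o c e w u = Ko h v i o c e w + MM h (i + 1) * (bb h ^ c * sp h u) := by
  unfold Ao Ko
  split_ifs
  · exact D424.el_split' h v i c _ u
  · exact D424.el_split h v i c e w u hw

theorem Ao_res (h : ℕ) (v : ℕ → ℕ → ℕ → ℕ) (i : ℕ) (o : Bool) (c e w u : ℕ) (he : e < NN h i)
    (hw : w < bb h ^ ss h i) :
    pt h v i c e + MM h i * (offo h v i o c e + bb h ^ c * sp h w) ≡
      Ao h v i o c e w u [MOD MM h (i + 1)] := by
  unfold Ao offo
  split_ifs
  · exact D424.el_res' h v i c e w u he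
  · exact D424.el_res h v i c e w u hw

/-- the form of a representation outside the exceptional sets -/
theorem canon2 {h : ℕ} (hh : 2 ≤ h) (v : ℕ → ℕ → ℕ → ℕ) {i k g : ℕ} (hi : 1 ≤ i)
    (hk1 : mm h (i + 1) + 2 ≤ k) (hk2 : k < mm h (i + 2) + 2) (hg : g + ll h (i - 1) + 1 ≤ ss h i)
    {n : ℕ} (hn1 : BB h ^ k ≤ n) (hn2 : n < BB h ^ (k + 1)) (hE1 : n ∉ E1 h v k g)
    (hE2 : n ∉ E2 h v i k) {s : Multiset ℕ} (hs : Multiset.card s = h)
    (hsA : ∀ a ∈ s, a ∈ AA h v) (hsn : s.sum = n) :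
    ∃ (o : Fin h → Bool) (e w u : Fin h → ℕ), (∀ c, e c < NN h i) ∧
      (∀ c, w c < bb h ^ ss h i) ∧
      s = Multiset.map (fun c : Fin h => Ao h v i (o c) c (e c) (w c) (u c)) univ.val := by
  have hB : 1 < BB h := two_le_BB (by omega)
  have hlow : ∀ a ∈ s, BB h ^ (k - g) ≤ a := by
    intro a ha
    by_contra hlt
    push Not at hlt
    exact hE1 ⟨hn1, hn2, s, hs, hsA, hsn, a, ha, hlt⟩
  have hup : ∀ a ∈ s, a < BB h ^ (k + 1) := by
    intro a ha
    have : a ≤ s.sum := Multiset.single_le_sum (fun x _ => Nat.zero_le x) a ha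
    omega
  obtain ⟨a, rfl⟩ := D424.exists_fn h s hs
  have hmem : ∀ l : Fin h, a l ∈ Multiset.map a univ.val := fun l =>
    Multiset.mem_map_of_mem a (mem_univ l)
  have hall := fun l : Fin h => D424.level hh v hi hk1 hk2 hg (hsA _ (hmem l)) (hlow _ (hmem l))
    (hup _ (hmem l))
  choose c e w u o he hw hae ho1 ho2 using hall
  have hae' : ∀ l, a l = Ao h v i (o l) (c l) (e l) (w l) (u l) := hae
  have hsum : ∑ l : Fin h, a l = n := hsn
  have hsumres : (∑ l : Fin h, (pt h v i (c l) (e l) + MM h i *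
      ((if o l then v i (c l) (e l) else kap h i (e l)) + bb h ^ (c l : ℕ) * sp h (w l)))) ≡ n
      [MOD MM h (i + 1)] := by
    rw [← hsum]
    refine Nat.ModEq.sum fun l _ => ?_
    rw [hae' l]
    exact Ao_res h v i (o l) (c l) (e l) (w l) (u l) (he l) (hw l)
  have hinj : Function.Injective c := by
    by_contra hni
    exact hE2 ⟨hn2, c, e, w, o, hni, he, hw, hsumres⟩
  have hbij : Function.Bijective c := Finite.injective_iff_bijective.1 hinj
  let σ : Fin h ≃ Fin h := Equiv.ofBijective c hbij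
  have hσ : ∀ x, c (σ.symm x) = x := fun x => σ.apply_symm_apply x
  refine ⟨fun x => o (σ.symm x), fun x => e (σ.symm x), fun x => w (σ.symm x),
    fun x => u (σ.symm x), fun x => he _, fun x => hw _, ?_⟩
  have h4 : Multiset.map a univ.val = Multiset.map (fun x : Fin h => a (σ.symm x)) univ.val := by
    have : Multiset.map (fun x : Fin h => a (σ.symm x)) univ.val =
        Multiset.map a (Multiset.map σ.symm univ.val) := by
      rw [Multiset.map_map]
      rfl
    rw [this, Multiset.map_univ_val_equiv]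
  rw [h4]
  refine Multiset.map_congr rfl fun x _ => ?_
  have h6 := hae' (σ.symm x)
  rw [hσ] at h6
  exact h6

/-- given the levels, the representation is unique -/
theorem same {h : ℕ} (hh : 2 ≤ h) (v : ℕ → ℕ → ℕ → ℕ) {i n : ℕ} {o : Fin h → Bool}
    {e w u e' w' u' : Fin h → ℕ} (he : ∀ c, e c < NN h i) (hw : ∀ c, w c < bb h ^ ss h i)
    (he' : ∀ c, e' c < NN h i) (hw' : ∀ c, w' c < bb h ^ ss h i)
    (hs : ∑ c : Fin h, Ao h v i (o c) c (e c) (w c) (u c) = n)
    (hs' : ∑ c : Fin h, Ao h v i (o c) c (e' c) (w' c) (u' c) = n) :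
    e = e' ∧ w = w' ∧ u = u' := by
  have hh0 : 0 < h := by omega
  have hres : (∑ c : Fin h, (pt h v i c (e c) + MM h i * (offo h v i (o c) c (e c) +
      bb h ^ (c : ℕ) * sp h (w c)))) ≡ n [MOD MM h (i + 1)] := by
    rw [← hs]
    exact Nat.ModEq.sum fun c _ => Ao_res h v i (o c) c (e c) (w c) (u c) (he c) (hw c)
  have hres' : (∑ c : Fin h, (pt h v i c (e' c) + MM h i * (offo h v i (o c) c (e' c) +
      bb h ^ (c : ℕ) * sp h (w' c)))) ≡ n [MOD MM h (i + 1)] := by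
    rw [← hs']
    exact Nat.ModEq.sum fun c _ => Ao_res h v i (o c) c (e' c) (w' c) (u' c) (he' c) (hw' c)
  obtain ⟨h1, h2⟩ := mixed_inj v hh0 (dec_inj v hh0 i) (fun c x => offo h v i (o c) c x) e w e' w'
    he he' hw hw' (hres.trans hres'.symm)
  subst h1
  subst h2
  have h3 : ∀ x : Fin h → ℕ, ∑ c : Fin h, Ao h v i (o c) c (e c) (w c) (x c) =
      (∑ c : Fin h, Ko h v i (o c) c (e c) (w c)) + MM h (i + 1) * comb h x := by
    intro x
    unfold comb
    rw [Finset.mul_sum, ← Finset.sum_add_distrib]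
    exact Finset.sum_congr rfl fun c _ => Ao_eq h v i (o c) c (e c) (w c) (x c) (hw c)
  have h4 : comb h u = comb h u' := by
    have h5 := hs.trans hs'.symm
    rw [h3 u, h3 u'] at h5
    exact Nat.eq_of_mul_eq_mul_left (MM_pos h (i + 1)) (by omega)
  exact ⟨rfl, rfl, comb_inj hh0 h4⟩

/-- at most `2 ^ h` representations outside the exceptional sets -/
theorem rep_le {h : ℕ} (hh : 2 ≤ h) (v : ℕ → ℕ → ℕ → ℕ) {i k g : ℕ} (hi : 1 ≤ i)
    (hk1 : mm h (i + 1) + 2 ≤ k) (hk2 : k < mm h (i + 2) + 2) (hg : g + ll h (i - 1) + 1 ≤ ss h i)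
    {n : ℕ} (hn1 : BB h ^ k ≤ n) (hn2 : n < BB h ^ (k + 1)) (hE1 : n ∉ E1 h v k g)
    (hE2 : n ∉ E2 h v i k) : rep (AA h v) h n ≤ 2 ^ h := by
  classical
  have hall : ∀ s : Multiset ℕ, ∃ o : Fin h → Bool,
      s ∈ {s : Multiset ℕ | Multiset.card s = h ∧ (∀ a ∈ s, a ∈ AA h v) ∧ s.sum = n} →
      ∃ (e w u : Fin h → ℕ), (∀ c, e c < NN h i) ∧ (∀ c, w c < bb h ^ ss h i) ∧
      s = Multiset.map (fun c : Fin h => Ao h v i (o c) c (e c) (w c) (u c)) univ.val := by
    intro s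
    by_cases hs : s ∈ {s : Multiset ℕ | Multiset.card s = h ∧ (∀ a ∈ s, a ∈ AA h v) ∧ s.sum = n}
    · obtain ⟨o, e, w, u, h1, h2, h3⟩ := canon2 hh v hi hk1 hk2 hg hn1 hn2 hE1 hE2 hs.1 hs.2.1 hs.2.2
      exact ⟨o, fun _ => ⟨e, w, u, h1, h2, h3⟩⟩
    · exact ⟨fun _ => false, fun h => absurd h hs⟩
  choose o ho using hall
  have hcard : (Set.univ : Set (Fin h → Bool)).ncard = 2 ^ h := by
    rw [Set.ncard_univ, Nat.card_eq_fintype_card]
    simp
  unfold rep
  rw [← hcard]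
  refine Set.ncard_le_ncard_of_injOn o (fun _ _ => Set.mem_univ _) ?_ Set.finite_univ
  intro s hs s' hs' hoo
  obtain ⟨e, w, u, h1, h2, h3⟩ := ho s hs
  obtain ⟨e', w', u', h1', h2', h3'⟩ := ho s' hs'
  rw [← hoo] at h3'
  have hsum : ∑ c : Fin h, Ao h v i (o s c) c (e c) (w c) (u c) = n := by
    have := hs.2.2
    rw [h3] at this
    exact this
  have hsum' : ∑ c : Fin h, Ao h v i (o s c) c (e' c) (w' c) (u' c) = n := by
    have := hs'.2.2
    rw [h3'] at this
    exact this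
  obtain ⟨r1, r2, r3⟩ := same hh v h1 h2 h1' h2' hsum hsum'
  rw [h3, h3', r1, r2, r3]

end Tw

end Pool.Agent.N885.NQ
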