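import Pool.Agent.N885.NQ.Two
import Pool.Agent.N885.NQ.Hash

/-! # Near-counterexamples of every order: counting the integers with more than `2 ^ h`
representations -/

set_option linter.unusedSectionVars false

namespace Pool.Agent.N885.NQ

open Finset

variable [QPar]

/-- the level belonging to a scale -/
theorem exists_level {h i₀ k : ℕ} (hk : mm h (i₀ + 1) + 2 ≤ k) :
    ∃ i, i₀ ≤ i ∧ mm h (i + 1) + 2 ≤ k ∧ k < mm h (i + 2) + 2 := by
  have hex : ∃ j, k < mm h (j + 2) + 2 := by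
    refine ⟨k, ?_⟩
    have := (X118.mm_strictMono h).id_le (k + 2)
    simp only [id] at this
    omega
  classical
  let j := Nat.find hex
  have hj : k < mm h (j + 2) + 2 := Nat.find_spec hex
  have hge : i₀ ≤ j := by
    have h5 : mm h (i₀ + 1) < mm h (j + 2) := by omega
    have h6 := (X118.mm_strictMono h).lt_iff_lt.mp h5
    omega
  refine ⟨j, hge, ?_, hj⟩
  rcases Nat.eq_zero_or_pos j with h0 | hpos
  · have : i₀ = 0 := by omega
    rw [this] at hk
    rw [h0]; exact hk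
  · have h5 := Nat.find_min hex (m := j - 1) (by omega)
    have h6 : j - 1 + 2 = j + 1 := by omega
    rw [h6] at h5
    omega

theorem two_count {h r : ℕ} (hh : 2 ≤ h) (hr : 1 ≤ r) (hq : QPar.q = 6 * r) (hT : S_Thin h)
    (v : ℕ → ℕ → ℕ → ℕ) : ∃ C : ℕ, ∀ k : ℕ,
      {n | BB h ^ k ≤ n ∧ n < BB h ^ (k + 1) ∧ 2 ^ h < rep (AA h v) h n}.ncard * (k + 1) ^ r ≤
        C * BB h ^ k := by
  obtain ⟨C1, hC1⟩ := e1 hh hT v
  obtain ⟨K, hK⟩ : ∃ K : ℕ, K = 9 * (QPar.q + 8) := ⟨_, rfl⟩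
  set C2 : ℕ := K ^ r * bb h ^ (2 * r) * (C1 + (2 * h) ^ h * BB h) with hC2
  refine ⟨C2 + BB h * (mm h 2 + 2) ^ r, fun k => ?_⟩
  set T := {n | BB h ^ k ≤ n ∧ n < BB h ^ (k + 1) ∧ 2 ^ h < rep (AA h v) h n} with hTdef
  have hTfin : T.Finite := (Set.finite_Iio (BB h ^ (k + 1))).subset fun n hn => hn.2.1
  rcases Nat.lt_or_ge k (mm h 2 + 2) with hk | hk
  · have h1 : T.ncard ≤ BB h ^ (k + 1) := by
      have : T ⊆ ((range (BB h ^ (k + 1)) : Finset ℕ) : Set ℕ) := fun n hn => by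
        rw [coe_range]; exact hn.2.1
      calc T.ncard ≤ ((range (BB h ^ (k + 1)) : Finset ℕ) : Set ℕ).ncard :=
            Set.ncard_le_ncard this (Finset.finite_toSet _)
        _ = BB h ^ (k + 1) := by rw [Set.ncard_coe_finset, card_range]
    calc T.ncard * (k + 1) ^ r ≤ BB h ^ (k + 1) * (mm h 2 + 2) ^ r :=
          Nat.mul_le_mul h1 (Nat.pow_le_pow_left (by omega) r)
      _ = BB h * (mm h 2 + 2) ^ r * BB h ^ k := by ring
      _ ≤ _ := Nat.mul_le_mul_right _ (Nat.le_add_left _ _)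
  · obtain ⟨i, hi1, hi2, hi3⟩ := exists_level (h := h) (i₀ := 1) (k := k) hk
    set b := bb h with hb
    have hbpos : 0 < b := bb_pos h
    have hb3 : 3 ≤ b := by have := lt_bb h; omega
    have hlg := lg_mono h (Nat.sub_le i 1)
    have hmul : QPar.q * lg h i = 6 * (r * lg h i) := by rw [hq]; ring
    have hrl : lg h i ≤ r * lg h i := Nat.le_mul_of_pos_left _ hr
    set g := ss h i - ll h (i - 1) - 1 with hg
    have hss : ss h i = 6 * (r * lg h i) + 6 := by unfold ss; rw [hmul]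
    have hll : ll h (i - 1) ≤ lg h i + 1 := by unfold ll; omega
    have hg1 : g + ll h (i - 1) + 1 ≤ ss h i := by omega
    have hg2 : 2 * r * lg h i ≤ g := by
      have : 2 * r * lg h i = 2 * (r * lg h i) := by ring
      omega
    have hg3 : g ≤ k := by
      have : mm h (i + 1) = mm h i + ss h i := mm_succ h i
      omega
    have hsub : T ⊆ E1 h v k g ∪ E2 h v i k := by
      rintro n ⟨hn1, hn2, hn3⟩
      by_contra hcon
      simp only [Set.mem_union, not_or] at hcon
      have := Tw.rep_le hh v hi1 hi2 hi3 hg1 hn1 hn2 hcon.1 hcon.2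
      omega
    have hf1 : (E1 h v k g).Finite := (Set.finite_Iio (BB h ^ (k + 1))).subset fun n hn => hn.2.1
    have hf2 : (E2 h v i k).Finite := (Set.finite_Iio (BB h ^ (k + 1))).subset fun n hn => hn.1
    have hle : T.ncard ≤ (E1 h v k g).ncard + (E2 h v i k).ncard :=
      (Set.ncard_le_ncard hsub (hf1.union hf2)).trans (Set.ncard_union_le _ _)
    -- first exceptional set
    have a1 : (E1 h v k g).ncard * b ^ (2 * r * lg h i) ≤ C1 * BB h ^ k :=
      (Nat.mul_le_mul_left _ (Nat.pow_le_pow_right hbpos hg2)).trans (hC1 k g hg3)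
    -- second exceptional set
    have a2 : (E2 h v i k).ncard * b ^ (2 * r * lg h i) ≤ (2 * h) ^ h * BB h * BB h ^ k := by
      have h1 := e2 hh v i k (by omega)
      set t := 2 * (r * lg h i) + 2 with ht
      have hst : ss h i = 3 * t := by omega
      have h2 : (2 * b - 1) ^ ss h i * b ^ t ≤ (b ^ 2) ^ ss h i := by
        calc (2 * b - 1) ^ ss h i * b ^ t ≤ (2 * b) ^ ss h i * b ^ t :=
              Nat.mul_le_mul_right _ (Nat.pow_le_pow_left (by omega) _)
          _ = ((2 * b) ^ 3 * b) ^ t := by rw [hst, pow_mul, mul_pow ((2 * b) ^ 3) b t]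
          _ ≤ ((b ^ 2) ^ 3) ^ t := by
              apply Nat.pow_le_pow_left
              have : (b ^ 2) ^ 3 = b ^ 4 * b ^ 2 := by ring
              rw [this]
              have h9 : 8 ≤ b ^ 2 := by nlinarith
              calc (2 * b) ^ 3 * b = b ^ 4 * 8 := by ring
                _ ≤ _ := Nat.mul_le_mul_left _ h9
          _ = (b ^ 2) ^ ss h i := by rw [hst, pow_mul]
      have hpos : 0 < (b ^ 2) ^ ss h i := Nat.pow_pos (Nat.pow_pos hbpos)
      have h3 : (E2 h v i k).ncard * b ^ t ≤ (2 * h) ^ h * BB h * BB h ^ k := by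
        apply Nat.le_of_mul_le_mul_right _ hpos
        calc (E2 h v i k).ncard * b ^ t * (b ^ 2) ^ ss h i
            = (E2 h v i k).ncard * (b ^ 2) ^ ss h i * b ^ t := by ring
          _ ≤ (2 * h) ^ h * (2 * b - 1) ^ ss h i * BB h ^ (k + 1) * b ^ t :=
              Nat.mul_le_mul_right _ h1
          _ = (2 * h) ^ h * BB h ^ (k + 1) * ((2 * b - 1) ^ ss h i * b ^ t) := by ring
          _ ≤ (2 * h) ^ h * BB h ^ (k + 1) * (b ^ 2) ^ ss h i := Nat.mul_le_mul_left _ h2
          _ = _ := by ring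
      refine le_trans (Nat.mul_le_mul_left _ (Nat.pow_le_pow_right hbpos ?_)) h3
      have : 2 * r * lg h i = 2 * (r * lg h i) := by ring
      omega
    have a3 : T.ncard * b ^ (2 * r * lg h i) ≤ (C1 + (2 * h) ^ h * BB h) * BB h ^ k := by
      calc T.ncard * b ^ (2 * r * lg h i)
          ≤ ((E1 h v k g).ncard + (E2 h v i k).ncard) * b ^ (2 * r * lg h i) :=
            Nat.mul_le_mul_right _ hle
        _ = (E1 h v k g).ncard * b ^ (2 * r * lg h i) + (E2 h v i k).ncard * b ^ (2 * r * lg h i) := by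
            ring
        _ ≤ C1 * BB h ^ k + (2 * h) ^ h * BB h * BB h ^ k := Nat.add_le_add a1 a2
        _ = _ := by ring
    -- the scale
    have a4 : k + 1 ≤ K * (i + 1) ^ 2 := by
      have h1 := Hs.mm_le h (i + 2)
      have h2 : (i + 2 + 1) ^ 2 ≤ 9 * (i + 1) ^ 2 := by
        calc (i + 2 + 1) ^ 2 ≤ (3 * (i + 1)) ^ 2 := Nat.pow_le_pow_left (by omega) 2
          _ = _ := by ring
      calc k + 1 ≤ mm h (i + 2) + 2 := by omega
        _ ≤ (QPar.q + 6) * (i + 2 + 1) ^ 2 + 2 := by omega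
        _ ≤ (QPar.q + 6) * (9 * (i + 1) ^ 2) + 2 * (9 * (i + 1) ^ 2) := by
            have h3 : 1 ≤ (i + 1) ^ 2 := Nat.one_le_pow _ _ (Nat.succ_pos i)
            exact Nat.add_le_add (Nat.mul_le_mul_left _ h2) (by omega)
        _ = K * (i + 1) ^ 2 := by rw [hK]; ring
    have a5 : i + 1 ≤ b * b ^ lg h i := by
      have := Nat.lt_pow_succ_log_self (b := bb h) (by omega) (i + 1)
      rw [pow_succ] at this
      unfold lg
      rw [mul_comm]
      exact this.le
    have a6 : (k + 1) ^ r ≤ K ^ r * b ^ (2 * r) * b ^ (2 * r * lg h i) := by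
      calc (k + 1) ^ r ≤ (K * (i + 1) ^ 2) ^ r := Nat.pow_le_pow_left a4 r
        _ ≤ (K * (b * b ^ lg h i) ^ 2) ^ r :=
            Nat.pow_le_pow_left (Nat.mul_le_mul_left _ (Nat.pow_le_pow_left a5 2)) r
        _ = _ := by
            rw [mul_pow, ← pow_mul, mul_pow, ← pow_mul, mul_assoc, mul_comm (lg h i)]
    calc T.ncard * (k + 1) ^ r ≤ T.ncard * (K ^ r * b ^ (2 * r) * b ^ (2 * r * lg h i)) :=
          Nat.mul_le_mul_left _ a6
      _ = K ^ r * b ^ (2 * r) * (T.ncard * b ^ (2 * r * lg h i)) := by ring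
      _ ≤ K ^ r * b ^ (2 * r) * ((C1 + (2 * h) ^ h * BB h) * BB h ^ k) := Nat.mul_le_mul_left _ a3
      _ = C2 * BB h ^ k := by rw [hC2]; ring
      _ ≤ _ := Nat.mul_le_mul_right _ (Nat.le_add_right _ _)

end Pool.Agent.N885.NQ
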